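import Pool.Agent.Lib.MP_65f012_coM.Defs

/-!
# Characters of a finite group of exponent two
-/

set_option autoImplicit false

namespace Pool.Agent.Lib.MP_65f012_coM

/-- the dual group -/
abbrev Du (V : Type) [AddCommGroup V] : Type := V →+ ZMod 2

theorem zmod2_cases (x : ZMod 2) : x = 0 ∨ x = 1 := by
  revert x; decide

theorem sep {V : Type} [AddCommGroup V] (hV : ∀ v : V, v + v = 0) (v : V) (hv : v ≠ 0) :
    ∃ p : Du V, p v = 1 := by
  let _ : Module (ZMod 2) V := AddCommGroup.zmodModule (n := 2) (fun x => by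
    rw [two_nsmul]
    exact hV x)
  by_contra h
  push Not at h
  refine hv ((Module.forall_dual_apply_eq_zero_iff (ZMod 2) v).1 fun φ => ?_)
  rcases zmod2_cases (φ v) with h1 | h1
  · exact h1
  · exact absurd h1 (h φ.toAddMonoidHom)

theorem card_Du {V : Type} [AddCommGroup V] [Finite V] (hV : ∀ v : V, v + v = 0) :
    Nat.card (Du V) = Nat.card V := by
  let _ : Module (ZMod 2) V := AddCommGroup.zmodModule (n := 2) (fun x => by
    rw [two_nsmul]
    exact hV x)
  have e : (V →ₗ[ZMod 2] ZMod 2) ≃ Du V :=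
    { toFun := fun φ => φ.toAddMonoidHom
      invFun := fun p => AddMonoidHom.toZModLinearMap 2 p
      left_inv := fun φ => by ext; rfl
      right_inv := fun p => by ext; rfl }
  have : Module.Finite (ZMod 2) V := Module.Finite.of_finite
  rw [← Nat.card_congr e]
  have h1 := Module.natCard_eq_pow_finrank (K := ZMod 2) (V := V)
  have h2 := Module.natCard_eq_pow_finrank (K := ZMod 2) (V := Module.Dual (ZMod 2) V)
  rw [h1]
  refine Eq.trans h2 ?_
  rw [Subspace.dual_finrank_eq]

noncomputable instance {V : Type} [AddCommGroup V] [Finite V] : Fintype (Du V) :=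
  @Fintype.ofFinite _ (Finite.of_injective (fun p : Du V => (p : V → ZMod 2)) DFunLike.coe_injective)

theorem orth1 {V : Type} [AddCommGroup V] [Finite V] (hV : ∀ v : V, v + v = 0) (v : V)
    (hv : v ≠ 0) : ∑ p : Du V, sg (p v) = 0 := by
  obtain ⟨p0, h0⟩ := sep hV v hv
  have h1 : ∑ p : Du V, sg (p v) = ∑ p : Du V, sg ((p + p0) v) :=
    (Equiv.sum_comp (Equiv.addRight p0) (fun p : Du V => sg (p v))).symm
  have h2 : ∑ p : Du V, sg ((p + p0) v) = - ∑ p : Du V, sg (p v) := by
    rw [← Finset.sum_neg_distrib]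
    refine Finset.sum_congr rfl fun p _ => ?_
    rw [AddMonoidHom.add_apply, sg_add, h0]
    show sg (p v) * (-1) = _
    ring
  omega

theorem orth2 {V : Type} [AddCommGroup V] [Fintype V] (p p' : Du V) (hp : p ≠ p') :
    ∑ v : V, sg (p v) * sg (p' v) = 0 := by
  obtain ⟨v0, h0⟩ : ∃ v0, p v0 ≠ p' v0 := by
    by_contra h
    push Not at h
    exact hp (DFunLike.ext _ _ h)
  have h1 : ∑ v : V, sg (p v) * sg (p' v) = ∑ v : V, sg (p (v + v0)) * sg (p' (v + v0)) :=
    (Equiv.sum_comp (Equiv.addRight v0) (fun v : V => sg (p v) * sg (p' v))).symm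
  have h2 : sg (p v0) * sg (p' v0) = -1 := by
    rcases zmod2_cases (p v0) with a | a <;> rcases zmod2_cases (p' v0) with b | b <;>
      simp_all [sg]
  have h3 : ∑ v : V, sg (p (v + v0)) * sg (p' (v + v0)) = - ∑ v : V, sg (p v) * sg (p' v) := by
    rw [← Finset.sum_neg_distrib]
    refine Finset.sum_congr rfl fun v _ => ?_
    rw [map_add, map_add, sg_add, sg_add]
    linear_combination (sg (p v) * sg (p' v)) * h2
  omega

end Pool.Agent.Lib.MP_65f012_coM
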