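import Pool.Agent.Lib.MP_65f012_co.Defs

/-!
# Complementation of some of the designs of a linked system
-/

set_option autoImplicit false
set_option linter.unusedSectionVars false

namespace Pool.Agent.Lib.MP_65f012_coM

open Classical MP_65f012_co

section count

variable {Z : Type} [Finite Z]

theorem cnt_split (P Q : Z → Prop) :
    Nat.card {z // P z ∧ Q z} + Nat.card {z // P z ∧ ¬ Q z} = Nat.card {z // P z} := by
  let _ : Fintype Z := Fintype.ofFinite Z
  rw [Nat.card_eq_fintype_card, Nat.card_eq_fintype_card, Nat.card_eq_fintype_card,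
    Fintype.card_subtype, Fintype.card_subtype, Fintype.card_subtype]
  have h := Finset.card_filter_add_card_filter_not (s := Finset.univ.filter P) Q
  rw [Finset.filter_filter, Finset.filter_filter] at h
  exact h

theorem cnt_comm (P Q : Z → Prop) : Nat.card {z // P z ∧ Q z} = Nat.card {z // Q z ∧ P z} :=
  Nat.card_congr (Equiv.subtypeEquivRight fun _ => and_comm)

theorem cnt_top (Q : Z → Prop) : Nat.card {z // Q z} + Nat.card {z // ¬ Q z} = Nat.card Z := by
  have h := cnt_split (fun _ : Z => True) Q
  have h1 : Nat.card {z : Z // True ∧ Q z} = Nat.card {z // Q z} :=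
    Nat.card_congr (Equiv.subtypeEquivRight fun _ => by simp)
  have h2 : Nat.card {z : Z // True ∧ ¬ Q z} = Nat.card {z // ¬ Q z} :=
    Nat.card_congr (Equiv.subtypeEquivRight fun _ => by simp)
  have h3 : Nat.card {_z : Z // True} = Nat.card Z :=
    Nat.card_congr (Equiv.subtypeUnivEquiv fun _ => trivial)
  rw [h1, h2, h3] at h
  exact h

/-- `P` or its negation -/
def tw (b : Bool) (P : Prop) : Prop := if b = true then ¬ P else P

/-- the number of elements with two properties or their negations -/
def twc (b b' : Bool) (v p q a : ℕ) : ℕ :=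
  match b, b' with
  | false, false => a
  | false, true => p - a
  | true, false => q - a
  | true, true => v + a - p - q

theorem cnt_tw (b b' : Bool) (P Q : Z → Prop) :
    Nat.card {z // tw b (P z) ∧ tw b' (Q z)} = twc b b' (Nat.card Z) (Nat.card {z // P z})
      (Nat.card {z // Q z}) (Nat.card {z // P z ∧ Q z}) := by
  have h1 := cnt_split P Q
  have h2 := cnt_split Q P
  have h3 := cnt_split (fun z => ¬ P z) Q
  have h4 := cnt_top P
  have h5 := cnt_top Q
  have h6 := cnt_comm P Q
  have h7 := cnt_comm Q (fun z => ¬ P z)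
  cases b <;> cases b'
  · rfl
  · show Nat.card {z // P z ∧ ¬ Q z} = _ - _
    omega
  · show Nat.card {z // ¬ P z ∧ Q z} = _ - _
    omega
  · show Nat.card {z // ¬ P z ∧ ¬ Q z} = _ + _ - _ - _
    omega

end count

variable {μ v : ℕ} (L : LinkedSystem μ v)

theorem row_count {i j : Fin μ} (hij : i ≠ j) (x : L.S i) :
    Nat.card {y : L.S j // L.Inc i j x y} = L.k i j := by
  rw [L.k_symm, ← L.block j i hij.symm x]
  exact Nat.card_congr (Equiv.subtypeEquivRight fun y => L.inc_symm i j x y)

/-- complementation of the designs between `S i` and `S j` for `c i j` -/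
noncomputable def twist (c : Fin μ → Fin μ → Bool) (hc : ∀ i j, c i j = c j i)
    (hk : ∀ i j, i ≠ j → 1 < L.k i j ∧ 2 * L.k i j < v + L.lam i j) : LinkedSystem μ v where
  two_lt := L.two_lt
  S := L.S
  finite := L.finite
  card_S := L.card_S
  Inc i j x y := tw (c i j) (L.Inc i j x y)
  inc_symm i j x y := by
    unfold tw
    rw [hc i j, L.inc_symm i j x y]
  k i j := if c i j = true then v - L.k i j else L.k i j
  lam i j := if c i j = true then v + L.lam i j - 2 * L.k i j else L.lam i j
  k_symm i j := by rw [hc i j, L.k_symm i j]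
  lam_symm i j := by rw [hc i j, L.k_symm i j, L.lam_symm i j]
  nontrivial i j hij := by
    have h1 := L.nontrivial i j hij
    have h2 := hk i j hij
    split_ifs <;> omega
  block i j hij y := by
    have := L.finite i
    have h1 := L.block i j hij y
    have h2 := cnt_top (fun x : L.S i => L.Inc i j x y)
    rw [L.card_S] at h2
    unfold tw
    split_ifs with h
    · omega
    · exact h1
  pairs i j hij x x' hx := by
    have := L.finite j
    have h1 := L.pairs i j hij x x' hx
    have h2 := cnt_tw (c i j) (c i j) (fun y : L.S j => L.Inc i j x y) (fun y => L.Inc i j x' y)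
    rw [h1, row_count L hij, row_count L hij, L.card_S] at h2
    rw [h2]
    cases c i j
    · rfl
    · show v + L.lam i j - L.k i j - L.k i j = v + L.lam i j - 2 * L.k i j
      omega
  link i j h hij hjh hhi := by
    have := L.finite h
    obtain ⟨σ, τ, hl⟩ := L.link i j h hij hjh hhi
    have key : ∀ (x : L.S i) (y : L.S j) (a : ℕ),
        Nat.card {z : L.S h // L.Inc i h x z ∧ L.Inc j h y z} = a →
        Nat.card {z : L.S h // tw (c i h) (L.Inc i h x z) ∧ tw (c j h) (L.Inc j h y z)} =
          twc (c i h) (c j h) v (L.k i h) (L.k j h) a := by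
      intro x y a ha
      have h2 := cnt_tw (c i h) (c j h) (fun z : L.S h => L.Inc i h x z) (fun z => L.Inc j h y z)
      rw [ha, row_count L hhi.symm, row_count L hjh, L.card_S] at h2
      exact h2
    cases hcij : c i j
    · refine ⟨twc (c i h) (c j h) v (L.k i h) (L.k j h) σ,
        twc (c i h) (c j h) v (L.k i h) (L.k j h) τ, fun x y => ⟨fun hi => ?_, fun hi => ?_⟩⟩
      · exact key x y σ ((hl x y).1 hi)
      · exact key x y τ ((hl x y).2 hi)
    · refine ⟨twc (c i h) (c j h) v (L.k i h) (L.k j h) τ,
        twc (c i h) (c j h) v (L.k i h) (L.k j h) σ, fun x y => ⟨fun hi => ?_, fun hi => ?_⟩⟩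
      · exact key x y τ ((hl x y).2 hi)
      · exact key x y σ ((hl x y).1 (not_not.1 hi))

end Pool.Agent.Lib.MP_65f012_coM
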