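import Pool.Agent.Lib.MP_65f012_coM.Defs

/-!
# The base system: `22` points, `V = F4³`

The points are the integers modulo `21` and one more point `21`. The system is invariant under translation
(except for the labels of the triples beginning with `21`). The labels are the numbers `0, ..., 63`, which stand for
the vectors with coordinates the three digits of two bits.
-/

set_option autoImplicit false
set_option maxRecDepth 100000

namespace Pool.Agent.Lib.MP_65f012_coM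

namespace Base

/-- third points of the pairs `(0, j)` -/
def T0 : List ℕ :=
  [0, 0, 0, 2, 6, 20, 9, 11, 16, 9, 14, 21, 3, 8, 17, 2, 7, 20, 14, 18, 21, 10, 13, 19, 1,
   2, 15, 1, 4, 19, 5, 6, 12, 4, 8, 18, 14, 15, 21, 3, 12, 17, 10, 13, 19, 4, 13, 16, 5, 11,
   12, 5, 7, 11, 1, 10, 16, 3, 6, 20, 7, 8, 17, 9, 15, 18]

/-- their labels -/
def A0 : List ℕ :=
  [0, 0, 0, 9, 22, 31, 28, 52, 40, 45, 32, 13, 43, 14, 37, 17, 15, 30, 16, 27, 11, 4, 12, 8,
   60, 24, 36, 19, 53, 38, 3, 41, 42, 20, 44, 56, 48, 54, 6, 21, 23, 2, 25, 55, 46, 33, 59,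
   26, 58, 7, 61, 57, 10, 51, 47, 29, 50, 62, 63, 1, 5, 34, 39, 49, 18, 35]

/-- their signs -/
def S0 : List ℕ :=
  [0, 0, 0, 0, 0, 0, 0, 0, 0, 0, 0, 0, 0, 0, 0, 0, 0, 0, 0, 0, 0, 0, 1, 1, 0, 0, 0, 0, 0, 0,
   0, 1, 1, 0, 1, 1, 0, 1, 1, 0, 1, 1, 0, 1, 1, 1, 0, 1, 0, 1, 1, 0, 1, 1, 1, 0, 1, 0, 1, 1,
   0, 0, 0, 0, 0, 0]

/-- labels of the triples `(21, j, j + 3)`, `(21, j, j + 6)`, `(21, j, j + 12)` -/
def B0 : List ℕ :=
  [19, 50, 33, 24, 16, 8, 9, 2, 11, 40, 21, 61, 32, 12, 44, 37, 57, 28, 43, 20, 63, 55, 46,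
   25, 3, 13, 14, 53, 23, 34, 38, 35, 5, 6, 7, 1, 42, 22, 60, 15, 29, 18, 27, 54, 45, 41, 51,
   26, 4, 52, 48, 56, 31, 39, 17, 47, 62, 49, 10, 59, 30, 36, 58]

/-- inverse of the table `A0` -/
def IA : List ℕ :=
  [0, 59, 41, 30, 21, 60, 38, 49, 23, 3, 52, 20, 22, 11, 13, 16, 18, 15, 64, 27, 33, 39, 4,
   40, 25, 42, 47, 19, 6, 55, 17, 5, 10, 45, 61, 65, 26, 14, 29, 62, 8, 31, 32, 12, 34, 9,
   44, 54, 36, 63, 56, 53, 7, 28, 37, 43, 35, 51, 48, 46, 24, 50, 57, 58]

/-- inverse of the table `B0` -/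
def IB : List ℕ :=
  [0, 35, 7, 24, 48, 32, 33, 34, 5, 6, 58, 8, 13, 25, 26, 39, 4, 54, 41, 0, 19, 10, 37, 28,
   3, 23, 47, 42, 17, 40, 60, 52, 12, 2, 29, 31, 61, 15, 30, 53, 9, 45, 36, 18, 14, 44, 22,
   55, 50, 57, 1, 46, 49, 27, 43, 21, 51, 16, 62, 59, 38, 11, 56, 20]

/-- difference -/
def df (i j : ℕ) : ℕ := if j = 21 then 21 else (j + 21 - i) % 21

/-- sum -/
def sh (i e : ℕ) : ℕ := if e = 21 then 21 else (i + e) % 21

/-- third points -/
def tN (i j m : ℕ) : ℕ :=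
  if i = 21 then (j + [3, 6, 12].getD m 0) % 21 else sh i (T0.getD (3 * df i j + m) 0)

/-- the index of a third point -/
def ix (i j l : ℕ) : ℕ :=
  if i = 21 then
    3 * j + (if (l + 21 - j) % 21 = 3 then 0 else if (l + 21 - j) % 21 = 6 then 1 else 2)
  else 3 * df i j + (if T0.getD (3 * df i j) 0 = df i l then 0 else
    if T0.getD (3 * df i j + 1) 0 = df i l then 1 else 2)

/-- the label of a triple -/
def aN (i j l : ℕ) : ℕ := if i = 21 then B0.getD (ix i j l) 0 else A0.getD (ix i j l) 0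

/-- the sign of a triple -/
def sN (i j l : ℕ) : ℕ :=
  if i = 21 then [1, 1, 0].getD (ix i j l % 3) 0 else S0.getD (ix i j l) 0

/-- a digit -/
def f4 : ℕ → F4
  | 0 => F4.O
  | 1 => F4.I
  | 2 => F4.W
  | _ => F4.Z

/-- the digits of a number -/
def vec (n : ℕ) : F4 × F4 × F4 := (f4 (n % 4), f4 (n / 4 % 4), f4 (n / 16 % 4))

/-- digits of a vector -/
def g4 : F4 → ℕ
  | F4.O => 0
  | F4.I => 1
  | F4.W => 2
  | F4.Z => 3

/-- the number of a vector -/
def num (v : F4 × F4 × F4) : ℕ := g4 v.1 + 4 * g4 v.2.1 + 16 * g4 v.2.2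

/-- third points -/
def t (i j : Fin 22) (m : Fin 3) : Fin 22 := Fin.ofNat 22 (tN i j m)

/-- labels -/
def a (i j l : Fin 22) : F4 × F4 × F4 := vec (aN i j l)

/-- signs -/
def s (i j l : Fin 22) : ZMod 2 := if sN i j l = 1 then 1 else 0

/-- the second point and the index, from the label -/
def dec (i : Fin 22) (v : F4 × F4 × F4) : Fin 22 × Fin 3 :=
  if (i : ℕ) = 21 then (Fin.ofNat 22 (IB.getD (num v) 0 / 3), Fin.ofNat 3 (IB.getD (num v) 0 % 3))
  else (Fin.ofNat 22 (sh i (IA.getD (num v) 0 / 3)), Fin.ofNat 3 (IA.getD (num v) 0 % 3))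

theorem t_inj (i j : Fin 22) (h : i ≠ j) (m m' : Fin 3) (e : t i j m = t i j m') : m = m' := by
  revert i j m m'
  decide +kernel

theorem t_ne (i j : Fin 22) (m : Fin 3) (h : i ≠ j) : t i j m ≠ i ∧ t i j m ≠ j := by
  revert i j m
  decide +kernel

theorem rot (i j : Fin 22) (m : Fin 3) (h : i ≠ j) : ∃ m', t j (t i j m) m' = i := by
  revert i j m
  decide +kernel

theorem row (i j : Fin 22) (h : i ≠ j) :
    a i j (t i j 0) + a i j (t i j 1) + a i j (t i j 2) = 0 := by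
  revert i j
  decide +kernel

theorem col (i j : Fin 22) (h : i ≠ j) :
    a j (t i j 0) i + a j (t i j 1) i + a j (t i j 2) i = 0 := by
  revert i j
  decide +kernel

theorem ne0 (i j : Fin 22) (m : Fin 3) (h : i ≠ j) : a i j (t i j m) ≠ 0 := by
  revert i j m
  decide +kernel

theorem dec_a (i j : Fin 22) (m : Fin 3) (h : i ≠ j) : dec i (a i j (t i j m)) = (j, m) := by
  revert i j m
  decide +kernel

theorem srow (i j : Fin 22) (h : i ≠ j) :
    s i j (t i j 0) + s i j (t i j 1) + s i j (t i j 2) = 0 := by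
  revert i j
  decide +kernel

theorem srot (i j : Fin 22) (m : Fin 3) (h : i ≠ j) :
    s i j (t i j m) + s j (t i j m) i + s (t i j m) i j = 1 := by
  revert i j m
  decide +kernel

/-- the base system -/
def sys : Sys (Fin 22) (F4 × F4 × F4) where
  t := t
  a := a
  s := s
  t_inj i j h := fun m m' e => t_inj i j h m m' e
  t_ne := t_ne
  rot := rot
  row i j h := by
    rw [Fin.sum_univ_three]
    exact row i j h
  col i j h := by
    rw [Fin.sum_univ_three]
    exact col i j h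
  ne0 := ne0
  inj i j m j' m' h h' e := by
    have h1 := dec_a i j m h
    rw [e, dec_a i j' m' h'] at h1
    exact ⟨(congrArg Prod.fst h1).symm, (congrArg Prod.snd h1).symm⟩
  srow i j h := by
    rw [Fin.sum_univ_three]
    exact srow i j h
  srot := srot

end Base

end Pool.Agent.Lib.MP_65f012_coM
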