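import Pool.Agent.Lib.MP_65f012_coM.Base

/-!
# The base geometry: the `21` one-dimensional subspaces of `F4³`
-/

set_option autoImplicit false
set_option maxRecDepth 100000

namespace Pool.Agent.Lib.MP_65f012_coM

namespace Base

/-- representatives -/
def u (k : Fin 22) : F4 × F4 × F4 :=
  if (k : ℕ) = 21 then (F4.O, F4.O, F4.O) else if (k : ℕ) = 0 then (F4.I, F4.O, F4.O) else
  if (k : ℕ) < 5 then (f4 (k - 1), F4.I, F4.O) else (f4 ((k - 5) % 4), f4 ((k - 5) / 4), F4.I)

/-- coordinate -/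
def sc (k : Fin 22) (v : F4 × F4 × F4) : F4 :=
  if (k : ℕ) = 21 then F4.O else if (k : ℕ) = 0 then v.1 else if (k : ℕ) < 5 then v.2.1 else v.2.2

/-- direction -/
def dir (v : F4 × F4 × F4) : Fin 22 :=
  if v.2.2 = F4.O then
    (if v.2.1 = F4.O then (if v.1 = F4.O then 21 else 0) else
      Fin.ofNat 22 (1 + g4 (F4.inv v.2.1 * v.1)))
  else Fin.ofNat 22 (5 + g4 (F4.inv v.2.2 * v.1) + 4 * g4 (F4.inv v.2.2 * v.2.1))

/-- the base geometry -/
def geo : Geo (Fin 22) (F4 × F4 × F4) where
  inf := 21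
  u := u
  sc := sc
  dir := dir
  dir_ne := by decide +kernel
  dir_u := by decide +kernel
  u_spec := by decide +kernel
  sc_add := by decide +kernel
  sc_zero := by decide +kernel

end Base

end Pool.Agent.Lib.MP_65f012_coM
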