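import Pool.Agent.Lib.MP_65f012_coM.F4

/-!
# Triple systems with labels and signs

`Sys Ω V`: a set of ordered triples `(i, j, l)` of distinct points of `Ω`, invariant under rotation,
such that every pair `i ≠ j` is in three triples `(i, j, t i j m)`; labels `a i j l` of the triples, for
fixed `i` a bijection onto the nonzero elements of `V` (only the injectivity is stated), such that the
labels of the triples `(i, j, *)` and of the triples `(i, *, l)` add up to `0`; signs `s i j l`.

`Geo Ω V`: `Ω` without the point `inf` is the set of the one-dimensional subspaces of `V`.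
-/

set_option autoImplicit false

namespace Pool.Agent.Lib.MP_65f012_coM

/-- triple systems with labels and signs -/
structure Sys (Ω V : Type) [AddCommGroup V] where
  /-- the three third points of a pair -/
  t : Ω → Ω → Fin 3 → Ω
  /-- labels -/
  a : Ω → Ω → Ω → V
  /-- signs -/
  s : Ω → Ω → Ω → ZMod 2
  t_inj : ∀ i j, i ≠ j → Function.Injective (t i j)
  t_ne : ∀ i j m, i ≠ j → t i j m ≠ i ∧ t i j m ≠ j
  rot : ∀ i j m, i ≠ j → ∃ m', t j (t i j m) m' = i
  row : ∀ i j, i ≠ j → ∑ m, a i j (t i j m) = 0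
  col : ∀ i j, i ≠ j → ∑ m, a j (t i j m) i = 0
  ne0 : ∀ i j m, i ≠ j → a i j (t i j m) ≠ 0
  inj : ∀ i j m j' m', i ≠ j → i ≠ j' → a i j (t i j m) = a i j' (t i j' m') → j = j' ∧ m = m'
  srow : ∀ i j, i ≠ j → ∑ m, s i j (t i j m) = 0
  srot : ∀ i j m, i ≠ j → s i j (t i j m) + s j (t i j m) i + s (t i j m) i j = 1

/-- the points of `Ω` different from `inf` are the one-dimensional subspaces of `V` -/
structure Geo (Ω V : Type) [AddCommGroup V] [Module F4 V] where
  /-- the additional point -/
  inf : Ω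
  /-- representatives -/
  u : Ω → V
  /-- coordinates -/
  sc : Ω → V → F4
  /-- the subspace generated by a vector -/
  dir : V → Ω
  dir_ne : ∀ v, v ≠ 0 → dir v ≠ inf
  dir_u : ∀ κ (c : F4), κ ≠ inf → c ≠ 0 → dir (c • u κ) = κ
  u_spec : ∀ v, v ≠ 0 → ∃ c : F4, c ≠ 0 ∧ v = c • u (dir v)
  sc_add : ∀ κ v (c : F4), κ ≠ inf → sc κ (v + c • u κ) = sc κ v + c
  sc_zero : ∀ κ, sc κ 0 = 0

/-- the sign of an element of `ZMod 2` -/
def sg (x : ZMod 2) : ℤ := if x = 0 then 1 else -1

theorem sg_add (x y : ZMod 2) : sg (x + y) = sg x * sg y := by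
  revert x y; decide

theorem sg_mul_self (x : ZMod 2) : sg x * sg x = 1 := by
  revert x; decide

theorem sg_zero : sg 0 = 1 := rfl

theorem sg_three (x y z : ZMod 2) (h : x + y + z = 1) : sg x * sg y * sg z = -1 := by
  revert x y z; decide

theorem sg_three' (x y z : ZMod 2) (h : x + y + z = 1) : sg x * sg y = - sg z := by
  revert x y z; decide

/-- three bits with sum zero -/
theorem sg_sum (τ : Fin 3 → ZMod 2) (h : ∑ m, τ m = 0) :
    1 + ∑ m, sg (τ m) = if ∀ m, τ m = 0 then 4 else 0 := by
  revert τ; decide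

end Pool.Agent.Lib.MP_65f012_coM
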