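import Mathlib

/-!
# The field with four elements (explicit), with decidable computations
-/

set_option autoImplicit false

namespace Pool.Agent.Lib.MP_65f012_coM

/-- the elements `0, 1, ω, ω²` of the field with four elements -/
inductive F4 : Type
  | O | I | W | Z
  deriving DecidableEq, Fintype

namespace F4

/-- addition -/
def add' : F4 → F4 → F4
  | O, y => y
  | x, O => x
  | I, I => O | I, W => Z | I, Z => W
  | W, I => Z | W, W => O | W, Z => I
  | Z, I => W | Z, W => I | Z, Z => O

/-- multiplication -/
def mul' : F4 → F4 → F4
  | O, _ => O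
  | _, O => O
  | I, y => y
  | x, I => x
  | W, W => Z | W, Z => I
  | Z, W => I | Z, Z => W

/-- inverse -/
def inv : F4 → F4
  | O => O | I => I | W => Z | Z => W

instance : Zero F4 := ⟨O⟩
instance : One F4 := ⟨I⟩
instance : Add F4 := ⟨add'⟩
instance : Mul F4 := ⟨mul'⟩
instance : Neg F4 := ⟨id⟩

instance : CommRing F4 where
  add_assoc := by decide
  zero_add := by decide
  add_zero := by decide
  add_comm := by decide
  neg_add_cancel := by decide
  mul_assoc := by decide
  one_mul := by decide
  mul_one := by decide
  zero_mul := by decide
  mul_zero := by decide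
  left_distrib := by decide
  right_distrib := by decide
  mul_comm := by decide
  nsmul := nsmulRec
  zsmul := zsmulRec

theorem add_self (c : F4) : c + c = 0 := by
  revert c; decide

theorem inv_mul (c : F4) (h : c ≠ 0) : inv c * c = 1 := by
  revert c; decide

theorem card : Fintype.card F4 = 4 := rfl

end F4

/-- `v + v = 0` in modules over `F4` -/
theorem add_self4 {V : Type*} [AddCommGroup V] [Module F4 V] (v : V) : v + v = 0 := by
  have h : ((1 : F4) + 1) • v = 0 := by
    rw [F4.add_self, zero_smul]
  rwa [add_smul, one_smul] at h

/-- the scalars `1, ω, ω²` -/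
def cc : Fin 3 → F4 := ![F4.I, F4.W, F4.Z]

theorem cc_ne (m : Fin 3) : cc m ≠ 0 := by
  revert m; decide

theorem cc_inj : Function.Injective cc := by
  intro a b; revert a b; decide

theorem exists_cc (c : F4) (h : c ≠ 0) : ∃ m, cc m = c := by
  revert c; decide

theorem sum_cc : ∑ m, cc m = 0 := by decide

end Pool.Agent.Lib.MP_65f012_coM
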