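import Pool.Agent.Lib.MP_65f012_coM.Mat
import Pool.Agent.Lib.MP_65f012_co.Defs

/-!
# The linked system of a system of triples
-/

set_option autoImplicit false
set_option linter.unusedSectionVars false

namespace Pool.Agent.Lib.MP_65f012_coM

open Classical

namespace Sys

variable {Ω V : Type} [AddCommGroup V] [Fintype Ω] [Fintype V] (S : Sys Ω V)

/-- the incidence relations between three copies of `Ω × Du V` -/
def Inc (i j : Fin 3) (x y : Ω × Du V) : Prop := (j = i + 1 ∧ S.Nn x y) ∨ (i = j + 1 ∧ S.Nn y x)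

theorem fin3_cases (i j : Fin 3) (h : i ≠ j) : (j = i + 1 ∧ ¬ i = j + 1) ∨ (i = j + 1 ∧ ¬ j = i + 1) := by
  revert i j; decide

theorem fin3_cases3 (i j h : Fin 3) (h1 : i ≠ j) (h2 : j ≠ h) (h3 : h ≠ i) :
    (j = i + 1 ∧ ¬ i = j + 1 ∧ h = j + 1 ∧ ¬ j = h + 1 ∧ i = h + 1 ∧ ¬ h = i + 1) ∨
    (i = j + 1 ∧ ¬ j = i + 1 ∧ j = h + 1 ∧ ¬ h = j + 1 ∧ h = i + 1 ∧ ¬ i = h + 1) := by
  revert i j h; decide

theorem inc_pos {i j : Fin 3} (h : j = i + 1) (h' : ¬ i = j + 1) (x y : Ω × Du V) :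
    S.Inc i j x y ↔ S.Nn x y := by
  unfold Inc
  constructor
  · rintro (h1 | h1)
    · exact h1.2
    · exact absurd h1.1 h'
  · intro h1
    exact Or.inl ⟨h, h1⟩

theorem inc_neg {i j : Fin 3} (h : i = j + 1) (h' : ¬ j = i + 1) (x y : Ω × Du V) :
    S.Inc i j x y ↔ S.Nn y x := by
  unfold Inc
  constructor
  · rintro (h1 | h1)
    · exact absurd h1.1 h'
    · exact h1.2
  · intro h1
    exact Or.inr ⟨h, h1⟩

theorem card_sum (P : Ω × Du V → Prop) :
    (Nat.card {w : Ω × Du V // P w} : ℤ) = ∑ w, (if P w then (1 : ℤ) else 0) := by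
  rw [Nat.card_eq_fintype_card, Fintype.card_subtype, Finset.sum_boole]

theorem card_and (P Q : Ω × Du V → Prop) :
    (Nat.card {w : Ω × Du V // P w ∧ Q w} : ℤ) =
      ∑ w, (if P w then (1 : ℤ) else 0) * (if Q w then (1 : ℤ) else 0) := by
  rw [card_sum]
  refine Finset.sum_congr rfl fun w _ => ?_
  by_cases h1 : P w <;> by_cases h2 : Q w <;> simp [h1, h2]

theorem card_congr' {P Q : Ω × Du V → Prop} (h : ∀ w, P w ↔ Q w) :
    Nat.card {w : Ω × Du V // P w} = Nat.card {w : Ω × Du V // Q w} :=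
  Nat.card_congr (Equiv.subtypeEquivRight h)

theorem card_points (hV : ∀ v : V, v + v = 0) :
    Nat.card (Ω × Du V) = Fintype.card Ω * Fintype.card V := by
  rw [Nat.card_prod, card_Du hV, Nat.card_eq_fintype_card, Nat.card_eq_fintype_card]

theorem count_row (hV : ∀ v : V, v + v = 0) {c o : ℕ} (h1 : Fintype.card V = 16 * c)
    (h2 : Fintype.card Ω = o + 1) (u : Ω × Du V) :
    Nat.card {w : Ω × Du V // S.Nn u w} = 4 * c * o := by
  have h3 := S.M_row hV u
  have h4 : (Nat.card {w : Ω × Du V // S.Nn u w} : ℤ) = ∑ w, S.M u w := by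
    rw [card_sum]
    rfl
  rw [← h4, h1, h2] at h3
  push_cast at h3
  have h5 : (Nat.card {w : Ω × Du V // S.Nn u w} : ℤ) = 4 * c * o := by linarith
  exact_mod_cast h5

theorem count_col (hV : ∀ v : V, v + v = 0) {c o : ℕ} (h1 : Fintype.card V = 16 * c)
    (h2 : Fintype.card Ω = o + 1) (z : Ω × Du V) :
    Nat.card {w : Ω × Du V // S.Nn w z} = 4 * c * o := by
  have h3 := S.M_col hV z
  have h4 : (Nat.card {w : Ω × Du V // S.Nn w z} : ℤ) = ∑ w, S.M w z := by
    rw [card_sum]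
    rfl
  rw [← h4, h1, h2] at h3
  push_cast at h3
  have h5 : (Nat.card {w : Ω × Du V // S.Nn w z} : ℤ) = 4 * c * o := by linarith
  exact_mod_cast h5

theorem count_rr (hV : ∀ v : V, v + v = 0) (hc : 3 * Fintype.card Ω = Fintype.card V + 2) {c o : ℕ}
    (h1 : Fintype.card V = 16 * c) (h2 : Fintype.card Ω = o + 5) (u u' : Ω × Du V) (hu : u ≠ u') :
    Nat.card {w : Ω × Du V // S.Nn u w ∧ S.Nn u' w} = c * (o + 3) := by
  have h3 := S.M_MT hV hc u u' hu
  have h4 : (Nat.card {w : Ω × Du V // S.Nn u w ∧ S.Nn u' w} : ℤ) = ∑ w, S.M u w * S.M u' w := by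
    rw [card_and]
    rfl
  rw [← h4, h1, h2] at h3
  push_cast at h3
  have h5 : (Nat.card {w : Ω × Du V // S.Nn u w ∧ S.Nn u' w} : ℤ) = c * (o + 3) := by linarith
  exact_mod_cast h5

theorem count_cc (hV : ∀ v : V, v + v = 0) (hc : 3 * Fintype.card Ω = Fintype.card V + 2) {c o : ℕ}
    (h1 : Fintype.card V = 16 * c) (h2 : Fintype.card Ω = o + 5) (z z' : Ω × Du V) (hz : z ≠ z') :
    Nat.card {w : Ω × Du V // S.Nn w z ∧ S.Nn w z'} = c * (o + 3) := by
  have h3 := S.MT_M hV hc z z' hz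
  have h4 : (Nat.card {w : Ω × Du V // S.Nn w z ∧ S.Nn w z'} : ℤ) = ∑ w, S.M w z * S.M w z' := by
    rw [card_and]
    rfl
  rw [← h4, h1, h2] at h3
  push_cast at h3
  have h5 : (Nat.card {w : Ω × Du V // S.Nn w z ∧ S.Nn w z'} : ℤ) = c * (o + 3) := by linarith
  exact_mod_cast h5

theorem count_rc (hV : ∀ v : V, v + v = 0) {c o : ℕ} (h1 : Fintype.card V = 16 * c)
    (h2 : Fintype.card Ω = o + 5) (u z : Ω × Du V) :
    (S.Nn z u → Nat.card {w : Ω × Du V // S.Nn u w ∧ S.Nn w z} = c * o) ∧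
    (¬ S.Nn z u → Nat.card {w : Ω × Du V // S.Nn u w ∧ S.Nn w z} = c * (o + 4)) := by
  have h3 := S.M_M hV u z
  have h4 : (Nat.card {w : Ω × Du V // S.Nn u w ∧ S.Nn w z} : ℤ) = ∑ w, S.M u w * S.M w z := by
    rw [card_and]
    rfl
  rw [← h4, h1, h2] at h3
  push_cast at h3
  constructor
  · intro h
    have h6 : S.M z u = 1 := by
      unfold M
      rw [if_pos h]
    rw [h6] at h3
    have h5 : (Nat.card {w : Ω × Du V // S.Nn u w ∧ S.Nn w z} : ℤ) = c * o := by linarith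
    exact_mod_cast h5
  · intro h
    have h6 : S.M z u = 0 := by
      unfold M
      rw [if_neg h]
    rw [h6] at h3
    have h5 : (Nat.card {w : Ω × Du V // S.Nn u w ∧ S.Nn w z} : ℤ) = c * (o + 4) := by linarith
    exact_mod_cast h5

/-- the linked system -/
noncomputable def linked (hV : ∀ v : V, v + v = 0) (hc : 3 * Fintype.card Ω = Fintype.card V + 2)
    {c o n : ℕ} (h1 : Fintype.card V = 16 * c) (h2 : Fintype.card Ω = o + 5) (h0 : 0 < c)
    (hn : n = Fintype.card Ω * Fintype.card V) : MP_65f012_co.LinkedSystem 3 n where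
  two_lt := by norm_num
  S _ := Ω × Du V
  finite _ := inferInstance
  card_S _ := by rw [card_points (Ω := Ω) hV, hn]
  Inc := S.Inc
  inc_symm i j x y := by
    unfold Inc
    exact or_comm
  k _ _ := 4 * c * (o + 4)
  lam _ _ := c * (o + 3)
  k_symm _ _ := rfl
  lam_symm _ _ := rfl
  nontrivial i j _ := by
    rw [hn, h1, h2]
    refine ⟨by positivity, ?_, ?_⟩ <;> nlinarith
  block i j hij y := by
    rcases fin3_cases i j hij with h | h
    · rw [card_congr' (fun w => S.inc_pos h.1 h.2 w y)]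
      exact S.count_col hV h1 (o := o + 4) h2 y
    · rw [card_congr' (fun w => S.inc_neg h.1 h.2 w y)]
      exact S.count_row hV h1 (o := o + 4) h2 y
  pairs i j hij x x' hx := by
    rcases fin3_cases i j hij with h | h
    · rw [card_congr' (fun w => and_congr (S.inc_pos h.1 h.2 x w) (S.inc_pos h.1 h.2 x' w))]
      exact S.count_rr hV hc h1 h2 x x' hx
    · rw [card_congr' (fun w => and_congr (S.inc_neg h.1 h.2 x w) (S.inc_neg h.1 h.2 x' w))]
      exact S.count_cc hV hc h1 h2 x x' hx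
  link i j h hij hjh hhi := by
    refine ⟨c * o, c * (o + 4), fun x y => ?_⟩
    rcases fin3_cases3 i j h hij hjh hhi with ⟨a1, a2, a3, a4, a5, a6⟩ | ⟨a1, a2, a3, a4, a5, a6⟩
    · have e : Nat.card {w : Ω × Du V // S.Inc i h x w ∧ S.Inc j h y w} =
          Nat.card {w : Ω × Du V // S.Nn y w ∧ S.Nn w x} :=
        card_congr' (fun w => (and_congr (S.inc_neg a5 a6 x w) (S.inc_pos a3 a4 y w)).trans and_comm)
      rw [e, S.inc_pos a1 a2 x y]
      exact S.count_rc hV h1 h2 y x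
    · have e : Nat.card {w : Ω × Du V // S.Inc i h x w ∧ S.Inc j h y w} =
          Nat.card {w : Ω × Du V // S.Nn x w ∧ S.Nn w y} :=
        card_congr' (fun w => and_congr (S.inc_pos a5 a6 x w) (S.inc_neg a3 a4 y w))
      rw [e, S.inc_neg a1 a2 x y]
      exact S.count_rc hV h1 h2 x y

end Sys

end Pool.Agent.Lib.MP_65f012_coM
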