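import Pool.Agent.Lib.MP_65f012_coM.Defs

/-!
# The local blocks

The block of a line of `V`: its four points and one further point `K`, and for one direction a second
further point `R`.
-/

set_option autoImplicit false

namespace Pool.Agent.Lib.MP_65f012_coM

/-- the points of a block -/
inductive Lo : Type
  | A (c : F4)
  | K
  | R
  deriving DecidableEq, Fintype

namespace Lo

/-- code -/
def cd : Lo → ℕ
  | A F4.O => 0
  | A F4.I => 1
  | A F4.W => 2
  | A F4.Z => 3
  | K => 4
  | R => 5

/-- the pairs of the block -/
def vp (b : Bool) : Lo → Lo → Bool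
  | A c, A d => decide (c ≠ d)
  | A _, K => true
  | K, A _ => true
  | A _, R => b
  | R, A _ => b
  | _, _ => false

/-- third points -/
def tl (b : Bool) : Lo → Lo → Fin 3 → Lo
  | A _, A _, 0 => K
  | A c, A d, 1 => if b = true then R else A (c + F4.W * (c + d))
  | A c, A d, 2 => if b = true then A (c + F4.W * (c + d)) else A (c + F4.Z * (c + d))
  | A c, K, m => A (c + cc m)
  | A c, R, m => A (c + cc m)
  | K, A c, m => A (c + cc m)
  | R, A c, m => A (c + cc m)
  | x, _, _ => x

/-- labels of the triples beginning with a point of the line -/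
def ll (b : Bool) : Lo → Lo → Lo → F4 × F4
  | A c, A d, K => if b = true then (c + d, 0) else ((c + d) * (c + d), c + d)
  | A c, A d, R => (0, c + d)
  | A c, A d, A f => if b = true then (c + d, c + d) else ((c + f) * (c + d), c + f)
  | A c, K, A d => if b = true then (c + d, F4.W * (c + d)) else ((c + d) * (c + d), 0)
  | A c, R, A d => (F4.W * (c + d), c + d)
  | _, _, _ => (0, 0)

/-- signs -/
def es (b : Bool) (x y l : Lo) : ZMod 2 :=
  if Nat.testBit (if b = true then 1072615582955697404952262666930150937985024 else
    16356156978764435615813607818609750441984) ((cd x * 6 + cd y) * 6 + cd l) = true then 1 else 0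

theorem tl_inj (b : Bool) (x y : Lo) (h : vp b x y = true) (m m' : Fin 3)
    (hm : tl b x y m = tl b x y m') : m = m' := by
  revert b x y m m'
  decide +kernel

theorem tl_ne (b : Bool) (x y : Lo) (h : vp b x y = true) (m : Fin 3) :
    tl b x y m ≠ x ∧ tl b x y m ≠ y := by
  revert b x y m
  decide +kernel

theorem tl_vp (b : Bool) (x y : Lo) (h : vp b x y = true) (m : Fin 3) :
    vp b y (tl b x y m) = true := by
  revert b x y m
  decide +kernel

theorem tl_vp' (b : Bool) (x y : Lo) (h : vp b x y = true) (m : Fin 3) :
    vp b (tl b x y m) x = true := by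
  revert b x y m
  decide +kernel

theorem tl_rot (b : Bool) (x y : Lo) (h : vp b x y = true) (m : Fin 3) :
    ∃ m', tl b y (tl b x y m) m' = x := by
  revert b x y m
  decide +kernel

theorem ll_row (b : Bool) (c : F4) (y : Lo) (h : vp b (A c) y = true) :
    ll b (A c) y (tl b (A c) y 0) + ll b (A c) y (tl b (A c) y 1) + ll b (A c) y (tl b (A c) y 2) =
      0 := by
  revert b c y
  decide +kernel

theorem ll_col (b : Bool) (x : Lo) (d : F4) (h : vp b x (A d) = true) :
    ll b (A d) (tl b x (A d) 0) x + ll b (A d) (tl b x (A d) 1) x + ll b (A d) (tl b x (A d) 2) x =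
      0 := by
  revert b x d
  decide +kernel

theorem ll_ne (b : Bool) (c : F4) (y : Lo) (h : vp b (A c) y = true) (m : Fin 3) :
    ll b (A c) y (tl b (A c) y m) ≠ 0 ∧ ((ll b (A c) y (tl b (A c) y m)).1 = 0 → b = true) := by
  revert b c y m
  decide +kernel

theorem ll_inj (b : Bool) (c : F4) (y y' : Lo) (h : vp b (A c) y = true) (h' : vp b (A c) y' = true)
    (m m' : Fin 3) (e : ll b (A c) y (tl b (A c) y m) = ll b (A c) y' (tl b (A c) y' m')) :
    y = y' ∧ m = m' := by
  revert b c y y' m m'
  decide +kernel

theorem es_row (b : Bool) (x y : Lo) (h : vp b x y = true) :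
    es b x y (tl b x y 0) + es b x y (tl b x y 1) + es b x y (tl b x y 2) = 0 := by
  revert b x y
  decide +kernel

theorem es_rot (b : Bool) (x y : Lo) (h : vp b x y = true) (m : Fin 3) :
    es b x y (tl b x y m) + es b y (tl b x y m) x + es b (tl b x y m) x y = 1 := by
  revert b x y m
  decide +kernel

/-- the triples beginning with a further point -/
theorem tl_ext (b : Bool) (x : Lo) (c : F4) (m : Fin 3) (hx : ∀ e, x ≠ A e) :
    tl b x (A c) m = A (c + cc m) := by
  revert b x c m
  decide +kernel

theorem tl_ext' (b : Bool) (x : Lo) (c : F4) (m : Fin 3) (hx : ∀ e, x ≠ A e) :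
    tl b (A c) x m = A (c + cc m) := by
  revert b x c m
  decide +kernel

end Lo

end Pool.Agent.Lib.MP_65f012_coM
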