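import Pool.Agent.Lib.MP_65f012_coM.Step

/-!
# The new system
-/

set_option autoImplicit false
set_option linter.unusedSectionVars false

namespace Pool.Agent.Lib.MP_65f012_coM

open Classical Lo

theorem not_newp {Ω V : Type} {p q : Ω ⊕ V} (h : ¬ Geo.newp p q) :
    ∃ i j, p = Sum.inl i ∧ q = Sum.inl j := by
  match p, q, h with
  | Sum.inl i, Sum.inl j, _ => exact ⟨i, j, rfl, rfl⟩
  | Sum.inl i, Sum.inr j, h => exact absurd trivial h
  | Sum.inr i, Sum.inl j, h => exact absurd trivial h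
  | Sum.inr i, Sum.inr j, h => exact absurd trivial h

theorem vp_ext {b : Bool} {x y : Lo} (h : vp b x y = true) (hx : ∀ e, x ≠ A e) : ∃ c, y = A c := by
  cases y with
  | A c => exact ⟨c, rfl⟩
  | K =>
    exfalso
    cases x with
    | A e => exact hx e rfl
    | K => exact absurd h (by simp [vp])
    | R => exact absurd h (by simp [vp])
  | R =>
    exfalso
    cases x with
    | A e => exact hx e rfl
    | K => exact absurd h (by simp [vp])
    | R => exact absurd h (by simp [vp])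

theorem vp_ext' {b : Bool} {x y : Lo} (h : vp b x y = true) (hy : ∀ e, y ≠ A e) : ∃ c, x = A c := by
  cases x with
  | A c => exact ⟨c, rfl⟩
  | K =>
    exfalso
    cases y with
    | A e => exact hy e rfl
    | K => exact absurd h (by simp [vp])
    | R => exact absurd h (by simp [vp])
  | R =>
    exfalso
    cases y with
    | A e => exact hy e rfl
    | K => exact absurd h (by simp [vp])
    | R => exact absurd h (by simp [vp])

theorem vp_symm {b : Bool} {x y : Lo} (h : vp b x y = true) : vp b y x = true := by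
  revert b x y
  decide +kernel

theorem lo_cases (x : Lo) : (∃ c, x = A c) ∨ ∀ e, x ≠ A e := by
  cases x with
  | A c => exact Or.inl ⟨c, rfl⟩
  | K => exact Or.inr fun e h => by cases h
  | R => exact Or.inr fun e h => by cases h

theorem cc3 : cc 0 + cc 1 + cc 2 = 0 := by decide

theorem cc_add (c : F4) (m : Fin 3) : c + (c + cc m) = cc m := by
  rw [← add_assoc, F4.add_self, zero_add]

theorem cc_add' (c : F4) (m : Fin 3) : c + cc m + c = cc m := by
  rw [add_comm, cc_add]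

section

variable {V : Type} [AddCommGroup V] [Module F4 V]

theorem pair_sum {e1 e2 e3 : F4 × F4} (u : V) (h : e1 + e2 + e3 = 0) :
    (((e1.1 • u, e1.2) : V × F4) + (e2.1 • u, e2.2) + (e3.1 • u, e3.2)) = 0 := by
  have h1 : e1.1 + e2.1 + e3.1 = 0 := congrArg Prod.fst h
  have h2 : e1.2 + e2.2 + e3.2 = 0 := congrArg Prod.snd h
  rw [Prod.mk_add_mk, Prod.mk_add_mk, ← add_smul, ← add_smul, h1, h2, zero_smul]
  rfl

theorem smul_cancel {c : F4} (hc : c ≠ 0) {v w : V} (h : c • v = c • w) : v = w := by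
  have h1 := congrArg (fun x => F4.inv c • x) h
  simp only [smul_smul, F4.inv_mul c hc, one_smul] at h1
  exact h1

end

namespace Sys

variable {Ω V : Type} [AddCommGroup V] [Module F4 V] (S : Sys Ω V) (G : Geo Ω V) (z : Ω)

theorem a_tl {κ : Ω} (hκ : κ ≠ G.inf) (v : V) {x : Lo} {c : F4}
    (h : vp (Geo.kd z κ) x (A c) = true) (hx : ∀ e, x ≠ A e) (m : Fin 3) :
    S.a' G z (G.emb κ v x) (G.emb κ v (A c)) (S.t' G z (G.emb κ v x) (G.emb κ v (A c)) m) =
      (cc m • (v + (c + G.sc κ v) • G.u κ), cc m) := by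
  rw [S.t_emb G z hκ v h, tl_ext _ _ _ _ hx, S.a_ext G z hκ v h hx, cc_add]

theorem row' (hz : z ≠ G.inf) (i j : Ω ⊕ V) (hij : i ≠ j) :
    ∑ m, S.a' G z i j (S.t' G z i j m) = 0 := by
  by_cases hn : Geo.newp i j
  · obtain ⟨κ, v, x, y, hκ, hxy, rfl, rfl⟩ := G.rep z hz i j hij hn
    rw [Fin.sum_univ_three]
    rcases lo_cases x with ⟨c, rfl⟩ | hx
    · rw [S.t_emb G z hκ v hxy, S.t_emb G z hκ v hxy, S.t_emb G z hκ v hxy,
        S.a_emb G z hκ v hxy, S.a_emb G z hκ v hxy, S.a_emb G z hκ v hxy]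
      exact pair_sum _ (ll_row _ _ _ hxy)
    · obtain ⟨c, rfl⟩ := vp_ext hxy hx
      rw [S.a_tl G z hκ v hxy hx, S.a_tl G z hκ v hxy hx, S.a_tl G z hκ v hxy hx,
        Prod.mk_add_mk, Prod.mk_add_mk, ← add_smul, ← add_smul, cc3, zero_smul]
      rfl
  · obtain ⟨a, b, rfl, rfl⟩ := not_newp hn
    have hab : a ≠ b := fun h => hij (by rw [h])
    have h1 := S.row a b hab
    rw [Fin.sum_univ_three] at h1 ⊢
    show ((S.a a b (S.t a b 0), (0 : F4)) + (S.a a b (S.t a b 1), (0 : F4)) +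
      (S.a a b (S.t a b 2), (0 : F4))) = 0
    rw [Prod.mk_add_mk, Prod.mk_add_mk, h1]
    rfl

theorem col' (hz : z ≠ G.inf) (i j : Ω ⊕ V) (hij : i ≠ j) :
    ∑ m, S.a' G z j (S.t' G z i j m) i = 0 := by
  by_cases hn : Geo.newp i j
  · obtain ⟨κ, v, x, y, hκ, hxy, rfl, rfl⟩ := G.rep z hz i j hij hn
    rw [Fin.sum_univ_three, S.t_emb G z hκ v hxy, S.t_emb G z hκ v hxy, S.t_emb G z hκ v hxy]
    rcases lo_cases y with ⟨d, rfl⟩ | hy
    · rw [S.a_emb G z hκ v (tl_vp _ _ _ hxy _), S.a_emb G z hκ v (tl_vp _ _ _ hxy _),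
        S.a_emb G z hκ v (tl_vp _ _ _ hxy _)]
      exact pair_sum _ (ll_col _ _ _ hxy)
    · obtain ⟨c, rfl⟩ := vp_ext' hxy hy
      have h3 : ∀ m, S.a' G z (G.emb κ v y) (G.emb κ v (tl (Geo.kd z κ) (A c) y m))
          (G.emb κ v (A c)) = (cc m • (v + (c + cc m + G.sc κ v) • G.u κ), cc m) := by
        intro m
        have h4 := tl_vp _ _ _ hxy m
        rw [tl_ext' _ _ _ _ hy] at h4 ⊢
        rw [S.a_ext G z hκ v h4 hy, cc_add']
      rw [h3, h3, h3, Prod.mk_add_mk, Prod.mk_add_mk, cc3]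
      have h5 : cc 0 • (v + (c + cc 0 + G.sc κ v) • G.u κ) + cc 1 • (v + (c + cc 1 + G.sc κ v) • G.u κ) +
          cc 2 • (v + (c + cc 2 + G.sc κ v) • G.u κ) = (cc 0 + cc 1 + cc 2) • v +
          ((cc 0 + cc 1 + cc 2) * (c + G.sc κ v) + (cc 0 * cc 0 + cc 1 * cc 1 + cc 2 * cc 2)) •
            G.u κ := by
        module
      have h6 : cc 0 * cc 0 + cc 1 * cc 1 + cc 2 * cc 2 = 0 := by decide
      rw [h5, cc3, h6, zero_mul, zero_add, zero_smul, zero_smul, zero_add]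
      rfl
  · obtain ⟨a, b, rfl, rfl⟩ := not_newp hn
    have hab : a ≠ b := fun h => hij (by rw [h])
    have h1 := S.col a b hab
    rw [Fin.sum_univ_three] at h1 ⊢
    show ((S.a b (S.t a b 0) a, (0 : F4)) + (S.a b (S.t a b 1) a, (0 : F4)) +
      (S.a b (S.t a b 2) a, (0 : F4))) = 0
    rw [Prod.mk_add_mk, Prod.mk_add_mk, h1]
    rfl

theorem ne0' (hz : z ≠ G.inf) (i j : Ω ⊕ V) (m : Fin 3) (hij : i ≠ j) :
    S.a' G z i j (S.t' G z i j m) ≠ 0 := by
  by_cases hn : Geo.newp i j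
  · obtain ⟨κ, v, x, y, hκ, hxy, rfl, rfl⟩ := G.rep z hz i j hij hn
    rcases lo_cases x with ⟨c, rfl⟩ | hx
    · rw [S.t_emb G z hκ v hxy, S.a_emb G z hκ v hxy]
      intro h
      have h1 := congrArg Prod.fst h
      have h2 := congrArg Prod.snd h
      have h3 := ll_ne _ _ _ hxy m
      have h4 : (ll (Geo.kd z κ) (A c) y (tl (Geo.kd z κ) (A c) y m)).1 = 0 := by
        by_contra h5
        exact G.u_ne hκ h5 h1
      exact h3.1 (Prod.ext h4 h2)
    · obtain ⟨c, rfl⟩ := vp_ext hxy hx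
      rw [S.a_tl G z hκ v hxy hx]
      intro h
      exact cc_ne m (congrArg Prod.snd h)
  · obtain ⟨a, b, rfl, rfl⟩ := not_newp hn
    have hab : a ≠ b := fun h => hij (by rw [h])
    intro h
    exact S.ne0 a b m hab (congrArg Prod.fst h)

/-- labels beginning with an old point -/
theorem a_inl (hz : z ≠ G.inf) (k : Ω) (w : V) (m : Fin 3) :
    S.a' G z (Sum.inl k) (Sum.inr w) (S.t' G z (Sum.inl k) (Sum.inr w) m) = (cc m • w, cc m) := by
  obtain ⟨κ, v, x, y, hκ, hxy, h1, h2⟩ := G.rep z hz (Sum.inl k) (Sum.inr w) Sum.inl_ne_inr trivial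
  have hx : ∀ e, x ≠ A e := by
    intro e he
    rw [he] at h1
    exact absurd h1 Sum.inl_ne_inr
  obtain ⟨c, rfl⟩ := vp_ext hxy hx
  rw [h1, h2, S.a_tl G z hκ v hxy hx]
  have h3 : w = v + (c + G.sc κ v) • G.u κ := Sum.inr_injective h2
  rw [← h3]

theorem rep' (hz : z ≠ G.inf) (p : V) (j : Ω ⊕ V) (h : Sum.inr p ≠ j) :
    ∃ κ y, κ ≠ G.inf ∧ vp (Geo.kd z κ) (A (G.sc κ p)) y = true ∧ j = G.emb κ p y := by
  have hn : Geo.newp (Sum.inr p) j := by
    cases j <;> exact trivial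
  obtain ⟨κ, v, x, y, hκ, hxy, h1, h2⟩ := G.rep z hz _ _ h hn
  rcases lo_cases x with ⟨c, rfl⟩ | hx
  · have h3 : p = v + (c + G.sc κ v) • G.u κ := Sum.inr_injective h1
    refine ⟨κ, y, hκ, ?_, ?_⟩
    · rw [h3, G.sc_emb hκ]
      exact hxy
    · rw [h3, G.emb_base hκ]
      exact h2
  · exfalso
    cases x with
    | A e => exact hx e rfl
    | K => exact absurd h1 Sum.inr_ne_inl
    | R => exact absurd h1 Sum.inr_ne_inl

theorem inj_inr (hz : z ≠ G.inf) (p : V) (j j' : Ω ⊕ V) (m m' : Fin 3) (hj : Sum.inr p ≠ j)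
    (hj' : Sum.inr p ≠ j') (h : S.a' G z (Sum.inr p) j (S.t' G z (Sum.inr p) j m) =
      S.a' G z (Sum.inr p) j' (S.t' G z (Sum.inr p) j' m')) : j = j' ∧ m = m' := by
  obtain ⟨κ, y, hκ, hy, e1⟩ := rep' G z hz p j hj
  obtain ⟨κ', y', hκ', hy', e1'⟩ := rep' G z hz p j' hj'
  have hl : S.a' G z (Sum.inr p) j (S.t' G z (Sum.inr p) j m) =
      ((ll (Geo.kd z κ) (A (G.sc κ p)) y (tl (Geo.kd z κ) (A (G.sc κ p)) y m)).1 • G.u κ,
      (ll (Geo.kd z κ) (A (G.sc κ p)) y (tl (Geo.kd z κ) (A (G.sc κ p)) y m)).2) := by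
    rw [e1, ← G.emb_self (κ := κ) p, S.t_emb G z hκ p hy, S.a_emb G z hκ p hy]
  have hl' : S.a' G z (Sum.inr p) j' (S.t' G z (Sum.inr p) j' m') =
      ((ll (Geo.kd z κ') (A (G.sc κ' p)) y' (tl (Geo.kd z κ') (A (G.sc κ' p)) y' m')).1 • G.u κ',
      (ll (Geo.kd z κ') (A (G.sc κ' p)) y' (tl (Geo.kd z κ') (A (G.sc κ' p)) y' m')).2) := by
    rw [e1', ← G.emb_self (κ := κ') p, S.t_emb G z hκ' p hy', S.a_emb G z hκ' p hy']
  rw [hl, hl'] at h
  have n1 := ll_ne _ _ _ hy m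
  have n2 := ll_ne _ _ _ hy' m'
  obtain ⟨e, he⟩ : ∃ e, e = ll (Geo.kd z κ) (A (G.sc κ p)) y (tl (Geo.kd z κ) (A (G.sc κ p)) y m) :=
    ⟨_, rfl⟩
  obtain ⟨e', he'⟩ : ∃ e', e' = ll (Geo.kd z κ') (A (G.sc κ' p)) y'
    (tl (Geo.kd z κ') (A (G.sc κ' p)) y' m') := ⟨_, rfl⟩
  rw [← he] at h n1
  rw [← he'] at h n2
  have h1 : e.1 • G.u κ = e'.1 • G.u κ' := (Prod.mk.inj h).1
  have h2 : e.2 = e'.2 := (Prod.mk.inj h).2
  have hk : κ = κ' := by
    by_cases h3 : e.1 = 0
    · have h4 : e'.1 = 0 := by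
        by_contra h5
        refine G.u_ne hκ' h5 ?_
        rw [← h1, h3, zero_smul]
      exact (of_decide_eq_true (n1.2 h3)).trans (of_decide_eq_true (n2.2 h4)).symm
    · have h4 : e'.1 ≠ 0 := by
        intro h5
        refine G.u_ne hκ h3 ?_
        rw [h1, h5, zero_smul]
      rw [← G.dir_u κ e.1 hκ h3, h1, G.dir_u κ' e'.1 hκ' h4]
  subst hk
  have h3 : e = e' := Prod.ext (G.u_inj hκ h1) h2
  rw [he, he'] at h3
  obtain ⟨h4, h5⟩ := ll_inj _ _ _ _ hy hy' m m' h3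
  refine ⟨?_, h5⟩
  rw [e1, e1', h4]

theorem inj' (hz : z ≠ G.inf) (i j : Ω ⊕ V) (m : Fin 3) (j' : Ω ⊕ V) (m' : Fin 3) (hj : i ≠ j)
    (hj' : i ≠ j') (h : S.a' G z i j (S.t' G z i j m) = S.a' G z i j' (S.t' G z i j' m')) :
    j = j' ∧ m = m' := by
  cases i with
  | inr p => exact S.inj_inr G z hz p j j' m m' hj hj' h
  | inl k =>
    cases j with
    | inl a =>
      cases j' with
      | inl b =>
        have h1 : k ≠ a := fun h => hj (by rw [h])
        have h2 : k ≠ b := fun h => hj' (by rw [h])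
        have h3 := congrArg Prod.fst h
        obtain ⟨h4, h5⟩ := S.inj k a m b m' h1 h2 h3
        exact ⟨by rw [h4], h5⟩
      | inr w =>
        exfalso
        rw [S.a_inl G z hz] at h
        exact cc_ne m' (congrArg Prod.snd h).symm
    | inr w =>
      cases j' with
      | inl b =>
        exfalso
        rw [S.a_inl G z hz] at h
        exact cc_ne m (congrArg Prod.snd h)
      | inr w' =>
        rw [S.a_inl G z hz, S.a_inl G z hz] at h
        have h1 : m = m' := cc_inj (congrArg Prod.snd h)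
        subst h1
        have h2 : w = w' := smul_cancel (cc_ne m) (congrArg Prod.fst h)
        exact ⟨by rw [h2], rfl⟩

/-- the new system -/
noncomputable def next (hz : z ≠ G.inf) : Sys (Ω ⊕ V) (V × F4) where
  t := S.t' G z
  a := S.a' G z
  s := S.s' G z
  t_inj i j hij := by
    by_cases hn : Geo.newp i j
    · obtain ⟨κ, v, x, y, hκ, hxy, rfl, rfl⟩ := G.rep z hz i j hij hn
      intro m m' h
      rw [S.t_emb G z hκ v hxy, S.t_emb G z hκ v hxy] at h
      exact tl_inj _ _ _ hxy _ _ (G.emb_inj hκ v h)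
    · obtain ⟨a, b, rfl, rfl⟩ := not_newp hn
      have hab : a ≠ b := fun h => hij (by rw [h])
      intro m m' h
      exact S.t_inj a b hab (Sum.inl_injective h)
  t_ne i j m hij := by
    by_cases hn : Geo.newp i j
    · obtain ⟨κ, v, x, y, hκ, hxy, rfl, rfl⟩ := G.rep z hz i j hij hn
      rw [S.t_emb G z hκ v hxy]
      exact ⟨fun h => (tl_ne _ _ _ hxy m).1 (G.emb_inj hκ v h),
        fun h => (tl_ne _ _ _ hxy m).2 (G.emb_inj hκ v h)⟩
    · obtain ⟨a, b, rfl, rfl⟩ := not_newp hn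
      have hab : a ≠ b := fun h => hij (by rw [h])
      exact ⟨fun h => (S.t_ne a b m hab).1 (Sum.inl_injective h),
        fun h => (S.t_ne a b m hab).2 (Sum.inl_injective h)⟩
  rot i j m hij := by
    by_cases hn : Geo.newp i j
    · obtain ⟨κ, v, x, y, hκ, hxy, rfl, rfl⟩ := G.rep z hz i j hij hn
      obtain ⟨m', hm'⟩ := tl_rot _ _ _ hxy m
      refine ⟨m', ?_⟩
      rw [S.t_emb G z hκ v hxy, S.t_emb G z hκ v (tl_vp _ _ _ hxy m), hm']
    · obtain ⟨a, b, rfl, rfl⟩ := not_newp hn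
      have hab : a ≠ b := fun h => hij (by rw [h])
      obtain ⟨m', hm'⟩ := S.rot a b m hab
      exact ⟨m', congrArg Sum.inl hm'⟩
  row := S.row' G z hz
  col := S.col' G z hz
  ne0 := S.ne0' G z hz
  inj := S.inj' G z hz
  srow i j hij := by
    by_cases hn : Geo.newp i j
    · obtain ⟨κ, v, x, y, hκ, hxy, rfl, rfl⟩ := G.rep z hz i j hij hn
      rw [Fin.sum_univ_three, S.t_emb G z hκ v hxy, S.t_emb G z hκ v hxy, S.t_emb G z hκ v hxy,
        S.s_emb G z hκ v hxy, S.s_emb G z hκ v hxy, S.s_emb G z hκ v hxy]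
      exact es_row _ _ _ hxy
    · obtain ⟨a, b, rfl, rfl⟩ := not_newp hn
      have hab : a ≠ b := fun h => hij (by rw [h])
      exact S.srow a b hab
  srot i j m hij := by
    by_cases hn : Geo.newp i j
    · obtain ⟨κ, v, x, y, hκ, hxy, rfl, rfl⟩ := G.rep z hz i j hij hn
      rw [S.t_emb G z hκ v hxy, S.s_emb G z hκ v hxy, S.s_emb G z hκ v (tl_vp _ _ _ hxy m),
        S.s_emb G z hκ v (tl_vp' _ _ _ hxy m)]
      exact es_rot _ _ _ hxy m
    · obtain ⟨a, b, rfl, rfl⟩ := not_newp hn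
      have hab : a ≠ b := fun h => hij (by rw [h])
      exact S.srot a b m hab

end Sys

end Pool.Agent.Lib.MP_65f012_coM
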