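import Pool.Agent.Lib.MP_65f012_coM.Link
import Pool.Agent.Lib.MP_65f012_coM.Next
import Pool.Agent.Lib.MP_65f012_coM.BaseGeo
import Pool.Agent.Lib.MP_65f012_coM.Twist

/-!
# The tower of systems and the linked systems
-/

set_option autoImplicit false

namespace Pool.Agent.Lib.MP_65f012_coM

theorem tower (d : ℕ) : ∃ (Ω V : Type) (_ : Fintype Ω) (_ : Fintype V) (_ : AddCommGroup V)
    (_ : Module F4 V) (_ : Sys Ω V) (G : Geo Ω V) (z : Ω), z ≠ G.inf ∧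
    Fintype.card V = 4 ^ (d + 3) ∧ 3 * Fintype.card Ω = 4 ^ (d + 3) + 2 := by
  induction d with
  | zero =>
    refine ⟨Fin 22, F4 × F4 × F4, inferInstance, inferInstance, inferInstance, inferInstance,
      Base.sys, Base.geo, 0, ?_, ?_, ?_⟩
    · show (0 : Fin 22) ≠ 21
      decide
    · rw [Fintype.card_prod, Fintype.card_prod, F4.card]
      norm_num
    · rw [Fintype.card_fin]
      norm_num
  | succ d ih =>
    obtain ⟨Ω, V, i1, i2, i3, i4, S, G, z, hz, h1, h2⟩ := ih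
    refine ⟨Ω ⊕ V, V × F4, inferInstance, inferInstance, inferInstance, inferInstance,
      S.next G z hz, G.next, Sum.inl z, ?_, ?_, ?_⟩
    · intro h
      exact hz (Sum.inl_injective h)
    · rw [Fintype.card_prod, F4.card, h1, ← pow_succ]
    · rw [Fintype.card_sum, mul_add, h2, h1, pow_succ 4 (d + 3)]
      ring

theorem linked (d v k l : ℕ) (hd : 2 ≤ d) (hv : 3 * v = 4 ^ (d + 1) * (4 ^ (d + 1) + 2))
    (hk : 3 * k = 4 ^ d * (4 ^ (d + 1) - 1)) (hl : 3 * l = 4 ^ d * (4 ^ d - 1)) :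
    ∃ L : MP_65f012_co.LinkedSystem 3 v, ∀ i j, i ≠ j → L.k i j = k ∧ L.lam i j = l := by
  obtain ⟨d, rfl⟩ : ∃ e, d = e + 2 := ⟨d - 2, by omega⟩
  obtain ⟨Ω, V, i1, i2, i3, i4, S, G, z, hz, h1, h2⟩ := tower d
  have e1 : d + 2 + 1 = d + 3 := by ring
  rw [e1] at hv hk
  have p1 : (4 : ℕ) ^ (d + 3) = 64 * 4 ^ d := by ring
  have p2 : (4 : ℕ) ^ (d + 2) = 16 * 4 ^ d := by ring
  have p3 : 1 ≤ (4 : ℕ) ^ d := Nat.one_le_pow _ _ (by norm_num)
  have hmod : 4 ^ d % 3 = 1 := by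
    rw [Nat.pow_mod]
    norm_num
  obtain ⟨w, hw⟩ : ∃ w, w = 4 ^ d := ⟨_, rfl⟩
  rw [← hw] at p1 p2 p3 hmod
  rw [p1] at h1 h2 hv hk
  rw [p2] at hk hl
  have hc : 3 * Fintype.card Ω = Fintype.card V + 2 := by rw [h1, h2]
  have h3 : Fintype.card V = 16 * (4 * w) := by rw [h1]; ring
  obtain ⟨o, ho⟩ : ∃ o, Fintype.card Ω = o + 5 := ⟨Fintype.card Ω - 5, by omega⟩
  have h4 : 3 * (o + 4) = 64 * w - 1 := by omega
  have h5 : 3 * (o + 3) = 4 * (16 * w - 1) := by omega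
  have hv' : v = Fintype.card Ω * Fintype.card V := by
    have h6 : 3 * v = 3 * (Fintype.card Ω * Fintype.card V) := by
      rw [hv, ← h2, h1]
      ring
    omega
  refine ⟨S.linked (fun v => add_self4 v) hc h3 ho (by omega) hv', fun i j _ => ⟨?_, ?_⟩⟩
  · show 4 * (4 * w) * (o + 4) = k
    have h6 : 3 * (4 * (4 * w) * (o + 4)) = 3 * k := by
      rw [hk, ← h4]
      ring
    omega
  · show 4 * w * (o + 3) = l
    have h6 : 3 * (4 * w * (o + 3)) = 3 * l := by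
      rw [hl]
      linear_combination (4 * w) * h5
    omega

theorem not_pow (d v : ℕ) (hd : 2 ≤ d) (hv : 3 * v = 4 ^ (d + 1) * (4 ^ (d + 1) + 2)) (e : ℕ) :
    v ≠ 2 ^ e := by
  rintro rfl
  have h1 : (4 : ℕ) ^ (d + 1) + 2 = 2 * (2 * 4 ^ d + 1) := by ring
  rw [h1] at hv
  have h2 : 2 * 4 ^ d + 1 ∣ 3 * 2 ^ e := ⟨4 ^ (d + 1) * 2, by rw [hv]; ring⟩
  have h3 : Nat.Coprime (2 * 4 ^ d + 1) (2 ^ e) := by
    refine Nat.Coprime.pow_right e ?_
    rw [Nat.coprime_two_right]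
    exact ⟨4 ^ d, rfl⟩
  have h4 : 2 * 4 ^ d + 1 ∣ 3 := h3.dvd_of_dvd_mul_right h2
  have h5 : 2 * 4 ^ d + 1 ≤ 3 := Nat.le_of_dvd (by norm_num) h4
  have h6 : 4 ^ 2 ≤ (4 : ℕ) ^ d := Nat.pow_le_pow_right (by norm_num) hd
  omega

/-- the parameters are not those of a Menon design -/
theorem not_menon (d v k l : ℕ) (_hd : 2 ≤ d) (hv : 3 * v = 4 ^ (d + 1) * (4 ^ (d + 1) + 2))
    (hk : 3 * k = 4 ^ d * (4 ^ (d + 1) - 1)) (hl : 3 * l = 4 ^ d * (4 ^ d - 1)) :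
    4 * (k - l) < v := by
  have h2 : (4 : ℕ) ^ (d + 1) = 4 * 4 ^ d := by ring
  have p3 : 1 ≤ (4 : ℕ) ^ d := Nat.one_le_pow _ _ (by norm_num)
  obtain ⟨w, hw⟩ : ∃ w, w = 4 ^ d := ⟨_, rfl⟩
  rw [h2] at hv hk
  rw [← hw] at hv hk hl p3
  obtain ⟨x, rfl⟩ : ∃ x, w = x + 1 := ⟨w - 1, by omega⟩
  have e1 : 4 * (x + 1) - 1 = 4 * x + 3 := by omega
  have e2 : x + 1 - 1 = x := by omega
  rw [e1] at hk
  rw [e2] at hl
  have h3 : 3 * (k - l) = 3 * ((x + 1) * (x + 1)) := by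
    have h4 : 3 * (k - l) = (x + 1) * (4 * x + 3) - (x + 1) * x := by omega
    have h5 : (x + 1) * (4 * x + 3) = (x + 1) * x + 3 * ((x + 1) * (x + 1)) := by ring
    omega
  have h6 : k - l = (x + 1) * (x + 1) := by omega
  rw [h6]
  nlinarith

theorem family (d v k l : ℕ) (hd : 2 ≤ d) (hv : 3 * v = 4 ^ (d + 1) * (4 ^ (d + 1) + 2))
    (hk : 3 * k = 4 ^ d * (4 ^ (d + 1) - 1)) (hl : 3 * l = 4 ^ d * (4 ^ d - 1))
    (c : Fin 3 → Fin 3 → Bool) (hc : ∀ i j, c i j = c j i) :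
    ∃ L : MP_65f012_co.LinkedSystem 3 v, ∀ i j, i ≠ j →
      L.k i j = (if c i j = true then v - k else k) ∧
      L.lam i j = (if c i j = true then v + l - 2 * k else l) := by
  obtain ⟨L, hL⟩ := linked d v k l hd hv hk hl
  have h0 : ∀ i j, i ≠ j → 1 < L.k i j ∧ 2 * L.k i j < v + L.lam i j := by
    intro i j hij
    have h1 := L.nontrivial i j hij
    refine ⟨by omega, ?_⟩
    rw [(hL i j hij).1]
    have h2 : (4 : ℕ) ^ (d + 1) = 4 * 4 ^ d := by ring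
    have h3 : 2 * (3 * k) ≤ 3 * v := by
      rw [hk, hv, h2]
      have h4 : 4 ^ d * (4 * 4 ^ d - 1) ≤ 4 ^ d * (4 * 4 ^ d) := Nat.mul_le_mul_left _ (by omega)
      nlinarith [Nat.one_le_pow d 4 (by norm_num)]
    omega
  refine ⟨twist L c hc h0, fun i j hij => ⟨?_, ?_⟩⟩
  · show (if c i j = true then v - L.k i j else L.k i j) = _
    rw [(hL i j hij).1]
  · show (if c i j = true then v + L.lam i j - 2 * L.k i j else L.lam i j) = _
    rw [(hL i j hij).1, (hL i j hij).2]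

end Pool.Agent.Lib.MP_65f012_coM
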