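import Pool.Agent.Lib.MP_65f012_coM.Chi

/-!
# The incidence matrix of a system: `M Mᵀ` and `M²`
-/

set_option autoImplicit false
set_option linter.unusedSectionVars false

namespace Pool.Agent.Lib.MP_65f012_coM

open Classical

/-- the ordered triples -/
abbrev Tr (Ω : Type) : Type := {x : Ω × Ω × Fin 3 // x.1 ≠ x.2.1}

namespace Sys

section basic

variable {Ω V : Type} [AddCommGroup V] (S : Sys Ω V)

/-- third point -/
def th (x : Tr Ω) : Ω := S.t x.1.1 x.1.2.1 x.1.2.2

/-- label -/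
def A (x : Tr Ω) : V := S.a x.1.1 x.1.2.1 (S.th x)

/-- sign -/
def E (x : Tr Ω) : ℤ := sg (S.s x.1.1 x.1.2.1 (S.th x))

theorem th_ne (x : Tr Ω) : x.1.2.1 ≠ S.th x := (S.t_ne _ _ _ x.2).2.symm

/-- rotation -/
noncomputable def rho (x : Tr Ω) : Tr Ω :=
  ⟨(x.1.2.1, S.th x, Classical.choose (S.rot x.1.1 x.1.2.1 x.1.2.2 x.2)), S.th_ne x⟩

theorem rho_1 (x : Tr Ω) : (S.rho x).1.1 = x.1.2.1 := rfl

theorem rho_2 (x : Tr Ω) : (S.rho x).1.2.1 = S.th x := rfl

theorem rho_th (x : Tr Ω) : S.th (S.rho x) = x.1.1 :=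
  Classical.choose_spec (S.rot x.1.1 x.1.2.1 x.1.2.2 x.2)

theorem tr_ext (x y : Tr Ω) (h1 : x.1.1 = y.1.1) (h2 : x.1.2.1 = y.1.2.1)
    (h3 : S.th x = S.th y) : x = y := by
  obtain ⟨⟨i, j, m⟩, h⟩ := x
  obtain ⟨⟨i', j', m'⟩, h'⟩ := y
  simp only at h1 h2
  subst h1
  subst h2
  have h4 : m = m' := S.t_inj i j h h3
  subst h4
  rfl

theorem rho_3 (x : Tr Ω) : S.rho (S.rho (S.rho x)) = x := by
  refine S.tr_ext _ _ ?_ ?_ ?_
  · rw [rho_1, rho_2, rho_th]
  · rw [rho_2, rho_th, rho_1]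
  · rw [rho_th, rho_1, rho_2]

/-- rotation as a permutation -/
noncomputable def rhoE : Tr Ω ≃ Tr Ω where
  toFun := S.rho
  invFun x := S.rho (S.rho x)
  left_inv := S.rho_3
  right_inv := S.rho_3

theorem E_sq (x : Tr Ω) : S.E x * S.E x = 1 := sg_mul_self _

theorem A_ne (x : Tr Ω) : S.A x ≠ 0 := S.ne0 _ _ _ x.2

theorem A_rho (x : Tr Ω) : S.A (S.rho x) = S.a x.1.2.1 (S.th x) x.1.1 := by
  unfold A
  rw [rho_th, rho_1, rho_2]

theorem E_rho (x : Tr Ω) : S.E (S.rho x) = sg (S.s x.1.2.1 (S.th x) x.1.1) := by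
  unfold E
  rw [rho_th, rho_1, rho_2]

theorem E_rho2 (x : Tr Ω) : S.E (S.rho (S.rho x)) = sg (S.s (S.th x) x.1.1 x.1.2.1) := by
  rw [E_rho, rho_1, rho_2, rho_th]

theorem E_mul (x : Tr Ω) : S.E (S.rho (S.rho x)) * S.E x = - S.E (S.rho x) := by
  rw [E_rho2, E_rho]
  refine sg_three' _ _ _ ?_
  have h := S.srot x.1.1 x.1.2.1 x.1.2.2 x.2
  rw [← h]
  unfold th
  ring

theorem A_inj (x y : Tr Ω) (h1 : x.1.1 = y.1.1) (h2 : S.A x = S.A y) : x = y := by
  obtain ⟨⟨i, j, m⟩, h⟩ := x
  obtain ⟨⟨i', j', m'⟩, h'⟩ := y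
  simp only at h1
  subst h1
  obtain ⟨h3, h4⟩ := S.inj i j m j' m' h h' h2
  subst h3
  subst h4
  rfl

/-- incidence of the points of two copies of `Ω × Du V` -/
def Nn (u w : Ω × Du V) : Prop :=
  u.1 ≠ w.1 ∧ ∀ m, u.2 (S.a u.1 w.1 (S.t u.1 w.1 m)) + w.2 (S.a w.1 (S.t u.1 w.1 m) u.1) +
    S.s u.1 w.1 (S.t u.1 w.1 m) = 0

/-- the incidence matrix -/
noncomputable def M (u w : Ω × Du V) : ℤ := if S.Nn u w then 1 else 0

/-- the vectors `φ x` -/
noncomputable def phi (x : Tr Ω) (u : Ω × Du V) : ℤ := if x.1.1 = u.1 then sg (u.2 (S.A x)) else 0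

end basic

/-- `1` if the points are different -/
noncomputable def dd {Ω : Type} (i j : Ω) : ℤ := if i = j then 0 else 1

section fin

variable {Ω V : Type} [AddCommGroup V] [Fintype Ω] [Fintype V] (S : Sys Ω V)

theorem four_M (u w : Ω × Du V) :
    4 * S.M u w = dd u.1 w.1 + ∑ x : Tr Ω, S.E x * S.phi x u * S.phi (S.rho x) w := by
  by_cases h : u.1 = w.1
  · have h1 : S.M u w = 0 := by
      unfold M
      rw [if_neg]
      intro h2
      exact h2.1 h
    have h2 : ∑ x : Tr Ω, S.E x * S.phi x u * S.phi (S.rho x) w = 0 := by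
      refine Finset.sum_eq_zero fun x _ => ?_
      unfold phi
      by_cases h3 : x.1.1 = u.1
      · have h4 : (S.rho x).1.1 ≠ w.1 := by
          intro h5
          exact x.2 (by
            rw [h3, h, ← h5]
            rfl)
        rw [if_neg h4, mul_zero]
      · rw [if_neg h3, mul_zero, zero_mul]
    rw [h1, h2]
    unfold dd
    rw [if_pos h]
    ring
  · have h1 : ∑ x : Tr Ω, S.E x * S.phi x u * S.phi (S.rho x) w =
        ∑ m : Fin 3, sg (u.2 (S.a u.1 w.1 (S.t u.1 w.1 m)) + w.2 (S.a w.1 (S.t u.1 w.1 m) u.1) +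
          S.s u.1 w.1 (S.t u.1 w.1 m)) := by
      symm
      refine Fintype.sum_of_injective (fun m : Fin 3 => (⟨(u.1, w.1, m), h⟩ : Tr Ω)) ?_ _ _ ?_ ?_
      · intro m m' hm
        have h2 := congrArg (fun x : Tr Ω => x.1.2.2) hm
        exact h2
      · intro x hx
        unfold phi
        by_cases h3 : x.1.1 = u.1
        · by_cases h4 : (S.rho x).1.1 = w.1
          · exfalso
            refine hx ⟨x.1.2.2, ?_⟩
            refine Subtype.ext ?_
            show (u.1, w.1, x.1.2.2) = x.1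
            rw [← h3, ← h4]
            rfl
          · rw [if_neg h4, mul_zero]
        · rw [if_neg h3, mul_zero, zero_mul]
      · intro m
        unfold phi
        rw [A_rho]
        unfold A E th
        rw [rho_1]
        simp only [if_true]
        rw [sg_add, sg_add]
        ring
    have h2 : ∑ m : Fin 3, (u.2 (S.a u.1 w.1 (S.t u.1 w.1 m)) + w.2 (S.a w.1 (S.t u.1 w.1 m) u.1) +
        S.s u.1 w.1 (S.t u.1 w.1 m)) = 0 := by
      rw [Finset.sum_add_distrib, Finset.sum_add_distrib, S.srow _ _ h, ← map_sum, ← map_sum,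
        S.row _ _ h, S.col _ _ h, map_zero, map_zero]
      rfl
    have h3 := sg_sum _ h2
    rw [h1]
    unfold dd
    rw [if_neg h, h3]
    unfold M Nn
    by_cases h4 : ∀ m, u.2 (S.a u.1 w.1 (S.t u.1 w.1 m)) + w.2 (S.a w.1 (S.t u.1 w.1 m) u.1) +
        S.s u.1 w.1 (S.t u.1 w.1 m) = 0
    · rw [if_pos h4, if_pos ⟨h, h4⟩]
      norm_num
    · rw [if_neg h4, if_neg (fun h5 => h4 h5.2)]
      norm_num

/-- column form -/
theorem four_M_col (w z : Ω × Du V) :
    4 * S.M w z = dd w.1 z.1 + ∑ x : Tr Ω, (S.E x * S.phi (S.rho x) z) * S.phi x w := by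
  rw [four_M]
  congr 1
  refine Finset.sum_congr rfl fun x _ => ?_
  ring

/-- row form -/
theorem four_M_row (u w : Ω × Du V) :
    4 * S.M u w = dd u.1 w.1 + ∑ x : Tr Ω, (S.E (S.rho (S.rho x)) * S.phi (S.rho (S.rho x)) u) *
      S.phi x w := by
  rw [four_M]
  congr 1
  rw [← Equiv.sum_comp S.rhoE (fun x => (S.E (S.rho (S.rho x)) * S.phi (S.rho (S.rho x)) u) *
      S.phi x w)]
  refine Finset.sum_congr rfl fun x _ => ?_
  show S.E x * S.phi x u * S.phi (S.rho x) w = S.E (S.rho (S.rho (S.rho x))) *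
    S.phi (S.rho (S.rho (S.rho x))) u * S.phi (S.rho x) w
  rw [rho_3]

theorem phi_sum (hV : ∀ v : V, v + v = 0) (x : Tr Ω) (g : Ω → ℤ) :
    ∑ u : Ω × Du V, S.phi x u * g u.1 = 0 := by
  rw [Fintype.sum_prod_type]
  refine Finset.sum_eq_zero fun i _ => ?_
  unfold phi
  by_cases h : x.1.1 = i
  · simp only [h, if_true]
    rw [← Finset.sum_mul, orth1 hV _ (S.A_ne x), zero_mul]
  · simp only [h, if_false, zero_mul, Finset.sum_const_zero]

theorem phi_orth (hV : ∀ v : V, v + v = 0) (x y : Tr Ω) :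
    ∑ u : Ω × Du V, S.phi x u * S.phi y u = if x = y then (Fintype.card V : ℤ) else 0 := by
  rw [Fintype.sum_prod_type]
  by_cases h : x.1.1 = y.1.1
  · rw [Finset.sum_eq_single x.1.1]
    · unfold phi
      simp only [h, if_true]
      have h1 : ∀ p : Du V, sg (p (S.A x)) * sg (p (S.A y)) = sg (p (S.A x + S.A y)) := by
        intro p
        rw [map_add, sg_add]
      rw [Finset.sum_congr rfl fun p _ => h1 p]
      by_cases h2 : x = y
      · rw [if_pos h2, h2, hV]
        simp only [map_zero, sg_zero, Finset.sum_const, Finset.card_univ, nsmul_eq_mul, mul_one]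
        have h3 := card_Du (V := V) hV
        rw [Nat.card_eq_fintype_card, Nat.card_eq_fintype_card] at h3
        rw [h3]
      · rw [if_neg h2]
        refine orth1 hV _ fun h3 => h2 (S.A_inj x y h ?_)
        have h4 : S.A x + S.A y = S.A y + S.A y := by rw [h3, hV]
        exact add_right_cancel h4
    · intro i _ hi
      refine Finset.sum_eq_zero fun p _ => ?_
      unfold phi
      rw [if_neg (fun h' => hi h'.symm), zero_mul]
    · intro hi
      exact absurd (Finset.mem_univ _) hi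
  · have h2 : x ≠ y := fun h2 => h (by rw [h2])
    rw [if_neg h2]
    refine Finset.sum_eq_zero fun i _ => Finset.sum_eq_zero fun p _ => ?_
    unfold phi
    by_cases h3 : x.1.1 = i
    · have h4 : y.1.1 ≠ i := fun h4 => h (h3.trans h4.symm)
      rw [if_neg h4, mul_zero]
    · rw [if_neg h3, zero_mul]

/-- product of two expansions -/
theorem bil (hV : ∀ v : V, v + v = 0) (d d' : Ω → ℤ) (f g : Tr Ω → ℤ) :
    ∑ w : Ω × Du V, (d w.1 + ∑ x, f x * S.phi x w) * (d' w.1 + ∑ x, g x * S.phi x w) =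
      ∑ w : Ω × Du V, d w.1 * d' w.1 + Fintype.card V * ∑ x, f x * g x := by
  have h1 : ∀ w : Ω × Du V, (d w.1 + ∑ x, f x * S.phi x w) * (d' w.1 + ∑ x, g x * S.phi x w) =
      d w.1 * d' w.1 + ∑ x, g x * (S.phi x w * d w.1) + ∑ x, f x * (S.phi x w * d' w.1) +
      ∑ x, ∑ y, f x * g y * (S.phi x w * S.phi y w) := by
    intro w
    rw [add_mul, mul_add, mul_add, Finset.mul_sum, Finset.sum_mul, Finset.sum_mul_sum]
    have e1 : ∑ x, d w.1 * (g x * S.phi x w) = ∑ x, g x * (S.phi x w * d w.1) :=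
      Finset.sum_congr rfl fun x _ => by ring
    have e2 : ∑ x, f x * S.phi x w * d' w.1 = ∑ x, f x * (S.phi x w * d' w.1) :=
      Finset.sum_congr rfl fun x _ => by ring
    have e3 : ∑ x, ∑ y, f x * S.phi x w * (g y * S.phi y w) =
        ∑ x, ∑ y, f x * g y * (S.phi x w * S.phi y w) :=
      Finset.sum_congr rfl fun x _ => Finset.sum_congr rfl fun y _ => by ring
    rw [e1, e2, e3]
    ring
  rw [Finset.sum_congr rfl fun w _ => h1 w, Finset.sum_add_distrib, Finset.sum_add_distrib,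
    Finset.sum_add_distrib]
  have h2 : ∀ (q : Tr Ω → ℤ) (D : Ω → ℤ),
      ∑ w : Ω × Du V, ∑ x, q x * (S.phi x w * D w.1) = 0 := by
    intro q D
    rw [Finset.sum_comm]
    refine Finset.sum_eq_zero fun x _ => ?_
    rw [← Finset.mul_sum, S.phi_sum hV, mul_zero]
  have h3 : ∑ w : Ω × Du V, ∑ x, ∑ y, f x * g y * (S.phi x w * S.phi y w) =
      Fintype.card V * ∑ x, f x * g x := by
    rw [Finset.sum_comm, Finset.mul_sum]
    refine Finset.sum_congr rfl fun x _ => ?_
    rw [Finset.sum_comm, Finset.sum_eq_single x]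
    · rw [← Finset.mul_sum, S.phi_orth hV, if_pos rfl]
      ring
    · intro y _ hy
      rw [← Finset.mul_sum, S.phi_orth hV, if_neg (fun h => hy h.symm), mul_zero]
    · intro h
      exact absurd (Finset.mem_univ _) h
  rw [h2, h2, h3]
  ring

/-- the labels at a point are all the nonzero elements -/
theorem sum_label (hc : 3 * Fintype.card Ω = Fintype.card V + 2) (i : Ω) (F : V → ℤ) :
    ∑ x : Tr Ω, (if x.1.1 = i then F (S.A x) else 0) = (∑ v, F v) - F 0 := by
  rw [← Finset.sum_filter]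
  have h1 : ∑ x ∈ Finset.univ.filter (fun x : Tr Ω => x.1.1 = i), F (S.A x) =
      ∑ v ∈ (Finset.univ.filter (fun x : Tr Ω => x.1.1 = i)).image S.A, F v := by
    rw [Finset.sum_image]
    intro x hx y hy h
    rw [Finset.mem_coe, Finset.mem_filter] at hx hy
    exact S.A_inj x y (hx.2.trans hy.2.symm) h
  have hinj : Set.InjOn S.A (Finset.univ.filter (fun x : Tr Ω => x.1.1 = i) : Finset (Tr Ω)) := by
    intro x hx y hy h
    rw [Finset.mem_coe, Finset.mem_filter] at hx hy
    exact S.A_inj x y (hx.2.trans hy.2.symm) h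
  have hcard : (Finset.univ.filter (fun x : Tr Ω => x.1.1 = i)).card =
      3 * (Fintype.card Ω - 1) := by
    have e : (Finset.univ.filter (fun x : Tr Ω => x.1.1 = i)).card =
        ((Finset.univ.erase i) ×ˢ (Finset.univ : Finset (Fin 3))).card := by
      refine Finset.card_bij (fun x _ => (x.1.2.1, x.1.2.2)) ?_ ?_ ?_
      · intro x hx
        rw [Finset.mem_filter] at hx
        rw [Finset.mem_product]
        refine ⟨Finset.mem_erase.2 ⟨fun h => x.2 (hx.2.trans h.symm), Finset.mem_univ _⟩,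
          Finset.mem_univ _⟩
      · intro x hx y hy h
        rw [Finset.mem_filter] at hx hy
        refine Subtype.ext (Prod.ext (hx.2.trans hy.2.symm) h)
      · intro b hb
        rw [Finset.mem_product, Finset.mem_erase] at hb
        exact ⟨⟨(i, b.1, b.2), hb.1.1.symm⟩, by simp, rfl⟩
    rw [e, Finset.card_product, Finset.card_erase_of_mem (Finset.mem_univ _), Finset.card_univ,
      Finset.card_univ, Fintype.card_fin, mul_comm]
  have himg : (Finset.univ.filter (fun x : Tr Ω => x.1.1 = i)).image S.A =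
      Finset.univ.erase (0 : V) := by
    refine Finset.eq_of_subset_of_card_le ?_ ?_
    · intro v hv
      rw [Finset.mem_image] at hv
      obtain ⟨x, -, hx⟩ := hv
      rw [← hx]
      exact Finset.mem_erase.2 ⟨S.A_ne x, Finset.mem_univ _⟩
    · rw [Finset.card_image_of_injOn hinj, hcard, Finset.card_erase_of_mem (Finset.mem_univ _),
        Finset.card_univ]
      omega
  rw [h1, himg, Finset.sum_erase_eq_sub (Finset.mem_univ _)]

theorem phi_dual (hc : 3 * Fintype.card Ω = Fintype.card V + 2)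
    (u u' : Ω × Du V) : ∑ x : Tr Ω, S.phi x u * S.phi x u' =
      (if u = u' then (Fintype.card V : ℤ) else 0) - (1 - dd u.1 u'.1) := by
  by_cases h : u.1 = u'.1
  · have h1 : ∑ x : Tr Ω, S.phi x u * S.phi x u' =
        ∑ x : Tr Ω, (if x.1.1 = u.1 then (fun v => sg (u.2 v) * sg (u'.2 v)) (S.A x) else 0) := by
      refine Finset.sum_congr rfl fun x _ => ?_
      unfold phi
      rw [← h]
      by_cases h2 : x.1.1 = u.1
      · rw [if_pos h2, if_pos h2, if_pos h2]
      · rw [if_neg h2, if_neg h2, if_neg h2, mul_zero]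
    rw [h1, S.sum_label hc u.1 (fun v => sg (u.2 v) * sg (u'.2 v))]
    unfold dd
    rw [if_pos h, map_zero, map_zero, sg_zero]
    by_cases h3 : u = u'
    · rw [if_pos h3, ← h3]
      have h4 : ∀ v, sg (u.2 v) * sg (u.2 v) = 1 := fun v => sg_mul_self _
      rw [Finset.sum_congr rfl fun v _ => h4 v]
      simp
    · rw [if_neg h3, orth2]
      · ring
      · intro h4
        exact h3 (Prod.ext h h4)
  · have h3 : u ≠ u' := fun h3 => h (by rw [h3])
    rw [if_neg h3]
    unfold dd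
    rw [if_neg h]
    rw [Finset.sum_eq_zero]
    · ring
    · intro x _
      unfold phi
      by_cases h4 : x.1.1 = u.1
      · have h5 : x.1.1 ≠ u'.1 := fun h5 => h (h4.symm.trans h5)
        rw [if_neg h5, mul_zero]
      · rw [if_neg h4, zero_mul]

/-- sums over the first coordinate -/
theorem sum_fst (hV : ∀ v : V, v + v = 0) (g : Ω → ℤ) :
    ∑ w : Ω × Du V, g w.1 = Fintype.card V * ∑ i, g i := by
  rw [Fintype.sum_prod_type]
  simp only [Finset.sum_const, Finset.card_univ, nsmul_eq_mul]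
  have h3 := card_Du (V := V) hV
  rw [Nat.card_eq_fintype_card, Nat.card_eq_fintype_card] at h3
  rw [h3, ← Finset.mul_sum]

theorem dd_symm (i j : Ω) : (dd i j : ℤ) = dd j i := by
  unfold dd
  by_cases h : i = j
  · rw [if_pos h, if_pos h.symm]
  · rw [if_neg h, if_neg (fun h' => h h'.symm)]

theorem sum_dd (i : Ω) : ∑ j, (dd i j : ℤ) = Fintype.card Ω - 1 := by
  unfold dd
  have h : ∀ j, (if i = j then (0 : ℤ) else 1) = 1 - (if i = j then 1 else 0) := by
    intro j
    split_ifs <;> ring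
  rw [Finset.sum_congr rfl fun j _ => h j, Finset.sum_sub_distrib, Finset.sum_ite_eq]
  simp

theorem sum_dd_dd (i i' : Ω) :
    ∑ j, (dd i j : ℤ) * dd i' j = Fintype.card Ω - 1 - dd i i' := by
  by_cases h : i = i'
  · rw [← h]
    have h1 : ∀ j, (dd i j : ℤ) * dd i j = dd i j := by
      intro j
      unfold dd
      split_ifs <;> ring
    rw [Finset.sum_congr rfl fun j _ => h1 j, sum_dd]
    unfold dd
    rw [if_pos rfl]
    ring
  · unfold dd
    rw [if_neg h]
    have h2 : ∀ j, (if i = j then (0 : ℤ) else 1) * (if i' = j then 0 else 1) =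
        1 - (if i = j then 1 else 0) - (if i' = j then 1 else 0) := by
      intro j
      by_cases h3 : i = j
      · have h4 : i' ≠ j := fun h4 => h (h3.trans h4.symm)
        rw [if_pos h3, if_pos h3, if_neg h4, if_neg h4]
        ring
      · rw [if_neg h3, if_neg h3]
        split_ifs <;> ring
    rw [Finset.sum_congr rfl fun j _ => h2 j, Finset.sum_sub_distrib, Finset.sum_sub_distrib,
      Finset.sum_ite_eq, Finset.sum_ite_eq]
    simp

theorem M_row (hV : ∀ v : V, v + v = 0) (u : Ω × Du V) :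
    4 * ∑ w, S.M u w = Fintype.card V * (Fintype.card Ω - 1) := by
  rw [Finset.mul_sum]
  have h := S.bil hV (fun j => dd u.1 j) (fun _ => 1)
    (fun x => S.E (S.rho (S.rho x)) * S.phi (S.rho (S.rho x)) u) (fun _ => 0)
  simp only [zero_mul, Finset.sum_const_zero, add_zero, mul_one, mul_zero] at h
  rw [Finset.sum_congr rfl fun w _ => S.four_M_row u w, h, sum_fst hV, sum_dd]

theorem M_col (hV : ∀ v : V, v + v = 0) (z : Ω × Du V) :
    4 * ∑ w, S.M w z = Fintype.card V * (Fintype.card Ω - 1) := by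
  rw [Finset.mul_sum]
  have h := S.bil hV (fun j => dd j z.1) (fun _ => 1)
    (fun x => S.E x * S.phi (S.rho x) z) (fun _ => 0)
  simp only [zero_mul, Finset.sum_const_zero, add_zero, mul_one, mul_zero] at h
  rw [Finset.sum_congr rfl fun w _ => S.four_M_col w z, h, sum_fst hV (fun j => dd j z.1)]
  have h2 : ∀ j, (dd j z.1 : ℤ) = dd z.1 j := fun j => dd_symm _ _
  rw [Finset.sum_congr rfl fun j _ => h2 j, sum_dd]

theorem M_MT (hV : ∀ v : V, v + v = 0) (hc : 3 * Fintype.card Ω = Fintype.card V + 2)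
    (u u' : Ω × Du V) (hu : u ≠ u') :
    16 * ∑ w, S.M u w * S.M u' w = Fintype.card V * (Fintype.card Ω - 2) := by
  have h := S.bil hV (fun j => dd u.1 j) (fun j => dd u'.1 j)
    (fun x => S.E (S.rho (S.rho x)) * S.phi (S.rho (S.rho x)) u)
    (fun x => S.E (S.rho (S.rho x)) * S.phi (S.rho (S.rho x)) u')
  have h1 : 16 * ∑ w, S.M u w * S.M u' w = ∑ w, (4 * S.M u w) * (4 * S.M u' w) := by
    rw [Finset.mul_sum]
    exact Finset.sum_congr rfl fun w _ => by ring
  have h2 : ∑ x : Tr Ω, (S.E (S.rho (S.rho x)) * S.phi (S.rho (S.rho x)) u) *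
      (S.E (S.rho (S.rho x)) * S.phi (S.rho (S.rho x)) u') = ∑ x : Tr Ω, S.phi x u * S.phi x u' := by
    rw [← Equiv.sum_comp S.rhoE.symm (fun x => S.phi x u * S.phi x u')]
    refine Finset.sum_congr rfl fun x _ => ?_
    show (S.E (S.rho (S.rho x)) * S.phi (S.rho (S.rho x)) u) *
      (S.E (S.rho (S.rho x)) * S.phi (S.rho (S.rho x)) u') =
      S.phi (S.rho (S.rho x)) u * S.phi (S.rho (S.rho x)) u'
    linear_combination (S.phi (S.rho (S.rho x)) u * S.phi (S.rho (S.rho x)) u') *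
      S.E_sq (S.rho (S.rho x))
  rw [h1, Finset.sum_congr rfl fun w _ => by rw [S.four_M_row u w, S.four_M_row u' w], h, h2,
    S.phi_dual hc, if_neg hu, sum_fst hV (fun j => dd u.1 j * dd u'.1 j), sum_dd_dd]
  ring

theorem MT_M (hV : ∀ v : V, v + v = 0) (hc : 3 * Fintype.card Ω = Fintype.card V + 2)
    (z z' : Ω × Du V) (hz : z ≠ z') :
    16 * ∑ w, S.M w z * S.M w z' = Fintype.card V * (Fintype.card Ω - 2) := by
  have h := S.bil hV (fun j => dd j z.1) (fun j => dd j z'.1)
    (fun x => S.E x * S.phi (S.rho x) z) (fun x => S.E x * S.phi (S.rho x) z')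
  have h1 : 16 * ∑ w, S.M w z * S.M w z' = ∑ w, (4 * S.M w z) * (4 * S.M w z') := by
    rw [Finset.mul_sum]
    exact Finset.sum_congr rfl fun w _ => by ring
  have h2 : ∑ x : Tr Ω, (S.E x * S.phi (S.rho x) z) * (S.E x * S.phi (S.rho x) z') =
      ∑ x : Tr Ω, S.phi x z * S.phi x z' := by
    rw [← Equiv.sum_comp S.rhoE (fun x => S.phi x z * S.phi x z')]
    refine Finset.sum_congr rfl fun x _ => ?_
    show (S.E x * S.phi (S.rho x) z) * (S.E x * S.phi (S.rho x) z') =
      S.phi (S.rho x) z * S.phi (S.rho x) z'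
    linear_combination (S.phi (S.rho x) z * S.phi (S.rho x) z') * S.E_sq x
  have h3 : ∀ j : Ω, (dd j z.1 : ℤ) * dd j z'.1 = dd z.1 j * dd z'.1 j := by
    intro j
    rw [dd_symm j, dd_symm j]
  rw [h1, Finset.sum_congr rfl fun w _ => by rw [S.four_M_col w z, S.four_M_col w z'], h, h2,
    S.phi_dual hc, if_neg hz, sum_fst hV (fun j => dd j z.1 * dd j z'.1),
    Finset.sum_congr rfl fun j _ => h3 j, sum_dd_dd]
  ring

theorem M_M (hV : ∀ v : V, v + v = 0) (u z : Ω × Du V) :
    16 * ∑ w, S.M u w * S.M w z =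
      Fintype.card V * (Fintype.card Ω - 1) - 4 * Fintype.card V * S.M z u := by
  have h := S.bil hV (fun j => dd u.1 j) (fun j => dd j z.1)
    (fun x => S.E (S.rho (S.rho x)) * S.phi (S.rho (S.rho x)) u)
    (fun x => S.E x * S.phi (S.rho x) z)
  have h1 : 16 * ∑ w, S.M u w * S.M w z = ∑ w, (4 * S.M u w) * (4 * S.M w z) := by
    rw [Finset.mul_sum]
    exact Finset.sum_congr rfl fun w _ => by ring
  have h2 : ∑ x : Tr Ω, (S.E (S.rho (S.rho x)) * S.phi (S.rho (S.rho x)) u) *
      (S.E x * S.phi (S.rho x) z) = dd z.1 u.1 - 4 * S.M z u := by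
    rw [S.four_M z u, ← Equiv.sum_comp S.rhoE (fun x => S.E x * S.phi x z * S.phi (S.rho x) u)]
    have e : ∀ x : Tr Ω, (S.E (S.rho (S.rho x)) * S.phi (S.rho (S.rho x)) u) *
        (S.E x * S.phi (S.rho x) z) =
        - (S.E (S.rhoE x) * S.phi (S.rhoE x) z * S.phi (S.rho (S.rhoE x)) u) := by
      intro x
      show (S.E (S.rho (S.rho x)) * S.phi (S.rho (S.rho x)) u) *
        (S.E x * S.phi (S.rho x) z) =
        - (S.E (S.rho x) * S.phi (S.rho x) z * S.phi (S.rho (S.rho x)) u)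
      linear_combination (S.phi (S.rho (S.rho x)) u * S.phi (S.rho x) z) * S.E_mul x
    rw [Finset.sum_congr rfl fun x _ => e x, Finset.sum_neg_distrib]
    ring
  have h3 : ∀ j : Ω, (dd u.1 j : ℤ) * dd j z.1 = dd u.1 j * dd z.1 j := by
    intro j
    rw [dd_symm j]
  rw [h1, Finset.sum_congr rfl fun w _ => by rw [S.four_M_row u w, S.four_M_col w z], h, h2,
    sum_fst hV (fun j => dd u.1 j * dd j z.1), Finset.sum_congr rfl fun j _ => h3 j, sum_dd_dd,
    dd_symm z.1 u.1]
  ring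

end fin

end Sys

end Pool.Agent.Lib.MP_65f012_coM
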