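import Pool.Agent.Lib.MP_65f012_coM.Loc

/-!
# The step from `V` to `V × F4`
-/

set_option autoImplicit false
set_option linter.unusedSectionVars false

namespace Pool.Agent.Lib.MP_65f012_coM

open Classical Lo

namespace Geo

variable {Ω V : Type} [AddCommGroup V] [Module F4 V] (G : Geo Ω V)

theorem u_inj {κ : Ω} (hκ : κ ≠ G.inf) {c d : F4} (h : c • G.u κ = d • G.u κ) : c = d := by
  have h1 := G.sc_add κ 0 c hκ
  have h2 := G.sc_add κ 0 d hκ
  rw [h] at h1
  rw [h1] at h2
  exact add_left_cancel h2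

theorem u_ne {κ : Ω} (hκ : κ ≠ G.inf) {c : F4} (hc : c ≠ 0) : c • G.u κ ≠ 0 := by
  intro h
  refine hc (G.u_inj hκ ?_)
  rw [h, zero_smul]

/-- the new geometry -/
def next : Geo (Ω ⊕ V) (V × F4) where
  inf := Sum.inl G.inf
  u := fun x => match x with
    | Sum.inl κ => (G.u κ, 0)
    | Sum.inr v => (v, 1)
  sc := fun x w => match x with
    | Sum.inl κ => G.sc κ w.1
    | Sum.inr _ => w.2
  dir := fun w => if w.2 = 0 then Sum.inl (G.dir w.1) else Sum.inr (F4.inv w.2 • w.1)
  dir_ne := by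
    rintro ⟨w, t⟩ hv
    by_cases h : t = 0
    · have hw : w ≠ 0 := by
        intro hw
        refine hv ?_
        rw [hw, h]
        rfl
      simp only [h, if_true]
      intro h2
      exact G.dir_ne w hw (Sum.inl_injective h2)
    · simp only [h, if_false]
      exact Sum.inr_ne_inl
  dir_u := by
    rintro (κ | x) c hκ hc
    · have hκ' : κ ≠ G.inf := fun h => hκ (by rw [h])
      have h1 : (c • ((G.u κ, (0 : F4)) : V × F4)) = (c • G.u κ, 0) := by
        rw [Prod.smul_mk, smul_zero]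
      simp only [h1, if_true]
      rw [G.dir_u κ c hκ' hc]
    · have h1 : (c • ((x, (1 : F4)) : V × F4)) = (c • x, c) := by
        rw [Prod.smul_mk, smul_eq_mul, mul_one]
      simp only [h1, hc, if_false]
      rw [smul_smul, F4.inv_mul c hc, one_smul]
  u_spec := by
    rintro ⟨w, t⟩ hv
    by_cases h : t = 0
    · have hw : w ≠ 0 := by
        intro hw
        refine hv ?_
        rw [hw, h]
        rfl
      obtain ⟨c, hc, e⟩ := G.u_spec w hw
      refine ⟨c, hc, ?_⟩
      simp only [h, if_true]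
      rw [Prod.smul_mk, smul_zero, ← e]
    · refine ⟨t, h, ?_⟩
      simp only [h, if_false]
      rw [Prod.smul_mk, smul_smul, smul_eq_mul, mul_one, mul_comm, F4.inv_mul t h, one_smul]
  sc_add := by
    rintro (κ | x) ⟨w, t⟩ c hκ
    · have hκ' : κ ≠ G.inf := fun h => hκ (by rw [h])
      exact G.sc_add κ w c hκ'
    · show t + c * 1 = t + c
      rw [mul_one]
  sc_zero := by
    rintro (κ | x)
    · exact G.sc_zero κ
    · rfl

variable (z : Ω)

/-- `z` instead of `inf` -/
noncomputable def star (k : Ω) : Ω := if k = G.inf then z else k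

/-- the points of a block -/
noncomputable def emb (κ : Ω) (v : V) : Lo → Ω ⊕ V
  | A c => Sum.inr (v + (c + G.sc κ v) • G.u κ)
  | K => Sum.inl κ
  | R => Sum.inl G.inf

/-- local coordinates -/
noncomputable def loc (κ : Ω) : Ω ⊕ V → Lo
  | Sum.inl k => if k = G.inf then R else K
  | Sum.inr v => A (G.sc κ v)

/-- direction of the block of a pair -/
noncomputable def kap : Ω ⊕ V → Ω ⊕ V → Ω
  | Sum.inl k, _ => G.star z k
  | Sum.inr _, Sum.inl k => G.star z k
  | Sum.inr i, Sum.inr j => G.dir (i + j)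

/-- a point on the line -/
def bas : Ω ⊕ V → Ω ⊕ V → V
  | Sum.inr i, _ => i
  | Sum.inl _, Sum.inr i => i
  | Sum.inl _, Sum.inl _ => 0

/-- the kind of a direction -/
noncomputable def kd (κ : Ω) : Bool := decide (κ = z)

theorem sc_emb {κ : Ω} (hκ : κ ≠ G.inf) (v : V) (c : F4) :
    G.sc κ (v + (c + G.sc κ v) • G.u κ) = c := by
  rw [G.sc_add κ v _ hκ, add_comm c, ← add_assoc, F4.add_self, zero_add]

theorem loc_emb {κ : Ω} (hκ : κ ≠ G.inf) (v : V) (x : Lo) : G.loc κ (G.emb κ v x) = x := by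
  cases x with
  | A c => exact congrArg A (G.sc_emb hκ v c)
  | K =>
    show (if κ = G.inf then R else K) = K
    rw [if_neg hκ]
  | R =>
    show (if G.inf = G.inf then R else K) = R
    rw [if_pos rfl]

theorem emb_inj {κ : Ω} (hκ : κ ≠ G.inf) (v : V) {x y : Lo} (h : G.emb κ v x = G.emb κ v y) :
    x = y := by
  rw [← G.loc_emb hκ v x, h, G.loc_emb hκ]

theorem emb_base {κ : Ω} (hκ : κ ≠ G.inf) (v : V) (c : F4) (x : Lo) :
    G.emb κ (v + c • G.u κ) x = G.emb κ v x := by
  cases x with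
  | A d =>
    show Sum.inr _ = Sum.inr _
    congr 1
    rw [G.sc_add κ v _ hκ, add_assoc, ← add_smul]
    congr 2
    have h := F4.add_self c
    linear_combination h
  | K => rfl
  | R => rfl

theorem star_self {κ : Ω} (hκ : κ ≠ G.inf) : G.star z κ = κ := if_neg hκ

theorem star_inf : G.star z G.inf = z := if_pos rfl

theorem star_ne (hz : z ≠ G.inf) (k : Ω) : G.star z k ≠ G.inf := by
  unfold star
  split_ifs with h
  · exact hz
  · exact h

theorem kap_emb {κ : Ω} (hκ : κ ≠ G.inf) (v : V) {x y : Lo} (h : vp (kd z κ) x y = true) :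
    G.kap z (G.emb κ v x) (G.emb κ v y) = κ := by
  have hR : kd z κ = true → G.star z G.inf = κ := by
    intro h1
    rw [star_inf]
    exact (of_decide_eq_true h1).symm
  cases x with
  | A c =>
    cases y with
    | A d =>
      have hcd : c ≠ d := of_decide_eq_true h
      show G.dir (v + (c + G.sc κ v) • G.u κ + (v + (d + G.sc κ v) • G.u κ)) = κ
      have e : v + (c + G.sc κ v) • G.u κ + (v + (d + G.sc κ v) • G.u κ) = (c + d) • G.u κ := by
        have h1 : v + (c + G.sc κ v) • G.u κ + (v + (d + G.sc κ v) • G.u κ) =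
            (v + v) + (c + d + (G.sc κ v + G.sc κ v)) • G.u κ := by
          module
        rw [h1, add_self4, F4.add_self, zero_add, add_zero]
      rw [e]
      refine G.dir_u κ _ hκ ?_
      intro h2
      refine hcd ?_
      have h3 : c + d = d + d := by rw [h2, F4.add_self]
      exact add_right_cancel h3
    | K => exact G.star_self z hκ
    | R => exact hR h
  | K =>
    cases y with
    | A d => exact G.star_self z hκ
    | K => exact absurd h (by simp [vp])
    | R => exact absurd h (by simp [vp])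
  | R =>
    cases y with
    | A d => exact hR h
    | K => exact absurd h (by simp [vp])
    | R => exact absurd h (by simp [vp])

/-- pairs which are not old -/
def newp : Ω ⊕ V → Ω ⊕ V → Prop
  | Sum.inl _, Sum.inl _ => False
  | _, _ => True

theorem emb_self {κ : Ω} (v : V) : G.emb κ v (A (G.sc κ v)) = Sum.inr v := by
  show Sum.inr _ = Sum.inr _
  rw [F4.add_self, zero_smul, add_zero]

theorem rep (hz : z ≠ G.inf) (p q : Ω ⊕ V) (hpq : p ≠ q) (hn : newp p q) :
    ∃ κ v x y, κ ≠ G.inf ∧ vp (kd z κ) x y = true ∧ p = G.emb κ v x ∧ q = G.emb κ v y := by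
  have key : ∀ (k : Ω) (v : V), ∃ x : Lo, Sum.inl k = G.emb (G.star z k) v x ∧
      (∀ c, vp (kd z (G.star z k)) (A c) x = true) ∧ ∀ c, vp (kd z (G.star z k)) x (A c) = true := by
    intro k v
    by_cases hk : k = G.inf
    · refine ⟨R, ?_, ?_, ?_⟩
      · rw [hk]
        rfl
      · intro c
        rw [hk, star_inf]
        exact decide_eq_true rfl
      · intro c
        rw [hk, star_inf]
        exact decide_eq_true rfl
    · refine ⟨K, ?_, fun _ => rfl, fun _ => rfl⟩
      rw [star_self G z hk]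
      rfl
  match p, q, hpq, hn with
  | Sum.inl k, Sum.inr i, _, _ =>
    obtain ⟨x, h1, h2, h3⟩ := key k i
    exact ⟨G.star z k, i, x, A (G.sc (G.star z k) i), G.star_ne z hz k, h3 _, h1, (G.emb_self i).symm⟩
  | Sum.inr i, Sum.inl k, _, _ =>
    obtain ⟨x, h1, h2, h3⟩ := key k i
    exact ⟨G.star z k, i, A (G.sc (G.star z k) i), x, G.star_ne z hz k, h2 _, (G.emb_self i).symm, h1⟩
  | Sum.inr i, Sum.inr j, hpq, _ =>
    have hij : i + j ≠ 0 := by
      intro h
      refine hpq (congrArg _ ?_)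
      have h1 : i + j = j + j := by rw [h, add_self4]
      exact add_right_cancel h1
    obtain ⟨c, hc, e⟩ := G.u_spec _ hij
    have hκ := G.dir_ne _ hij
    have hj : j = i + c • G.u (G.dir (i + j)) := by
      rw [← e, ← add_assoc, add_self4, zero_add]
    refine ⟨G.dir (i + j), i, A (G.sc (G.dir (i + j)) i), A (G.sc (G.dir (i + j)) i + c), hκ, ?_,
      (G.emb_self i).symm, ?_⟩
    · refine decide_eq_true ?_
      intro h
      exact hc (left_eq_add.1 h)
    · show Sum.inr j = Sum.inr _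
      congr 1
      rw [add_comm (G.sc (G.dir (i + j)) i) c, add_assoc, F4.add_self, add_zero]
      exact hj

end Geo

namespace Sys

variable {Ω V : Type} [AddCommGroup V] [Module F4 V] (S : Sys Ω V) (G : Geo Ω V) (z : Ω)

/-- third points of new pairs -/
noncomputable def tn (p q : Ω ⊕ V) (m : Fin 3) : Ω ⊕ V :=
  G.emb (G.kap z p q) (Geo.bas p q) (tl (Geo.kd z (G.kap z p q)) (G.loc (G.kap z p q) p)
    (G.loc (G.kap z p q) q) m)

/-- third points -/
noncomputable def t' : Ω ⊕ V → Ω ⊕ V → Fin 3 → Ω ⊕ V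
  | Sum.inl i, Sum.inl j, m => Sum.inl (S.t i j m)
  | Sum.inl i, Sum.inr j, m => tn G z (Sum.inl i) (Sum.inr j) m
  | Sum.inr i, Sum.inl j, m => tn G z (Sum.inr i) (Sum.inl j) m
  | Sum.inr i, Sum.inr j, m => tn G z (Sum.inr i) (Sum.inr j) m

/-- labels -/
noncomputable def a' : Ω ⊕ V → Ω ⊕ V → Ω ⊕ V → V × F4
  | Sum.inl i, Sum.inl j, Sum.inl k => (S.a i j k, 0)
  | Sum.inl k, Sum.inr i, Sum.inr l =>
    ((G.sc (G.star z k) i + G.sc (G.star z k) l) • i, G.sc (G.star z k) i + G.sc (G.star z k) l)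
  | Sum.inr i, q, r =>
    ((ll (Geo.kd z (G.kap z (Sum.inr i) q)) (G.loc (G.kap z (Sum.inr i) q) (Sum.inr i))
      (G.loc (G.kap z (Sum.inr i) q) q) (G.loc (G.kap z (Sum.inr i) q) r)).1 •
        G.u (G.kap z (Sum.inr i) q),
      (ll (Geo.kd z (G.kap z (Sum.inr i) q)) (G.loc (G.kap z (Sum.inr i) q) (Sum.inr i))
      (G.loc (G.kap z (Sum.inr i) q) q) (G.loc (G.kap z (Sum.inr i) q) r)).2)
  | _, _, _ => 0

/-- signs of new pairs -/
noncomputable def sn (p q r : Ω ⊕ V) : ZMod 2 :=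
  es (Geo.kd z (G.kap z p q)) (G.loc (G.kap z p q) p) (G.loc (G.kap z p q) q)
    (G.loc (G.kap z p q) r)

/-- signs -/
noncomputable def s' : Ω ⊕ V → Ω ⊕ V → Ω ⊕ V → ZMod 2
  | Sum.inl i, Sum.inl j, Sum.inl k => S.s i j k
  | p, q, r => sn G z p q r

theorem bas_emb {κ : Ω} (v : V) {x y : Lo} (h : vp (Geo.kd z κ) x y = true) :
    ∃ c : F4, Geo.bas (G.emb κ v x) (G.emb κ v y) = v + c • G.u κ := by
  cases x with
  | A c => exact ⟨_, rfl⟩
  | K =>
    cases y with
    | A d => exact ⟨_, rfl⟩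
    | K => exact absurd h (by simp [vp])
    | R => exact absurd h (by simp [vp])
  | R =>
    cases y with
    | A d => exact ⟨_, rfl⟩
    | K => exact absurd h (by simp [vp])
    | R => exact absurd h (by simp [vp])

theorem tn_emb {κ : Ω} (hκ : κ ≠ G.inf) (v : V) {x y : Lo} (h : vp (Geo.kd z κ) x y = true)
    (m : Fin 3) : tn G z (G.emb κ v x) (G.emb κ v y) m = G.emb κ v (tl (Geo.kd z κ) x y m) := by
  obtain ⟨c, hc⟩ := bas_emb G z v h
  unfold tn
  rw [G.kap_emb z hκ v h, G.loc_emb hκ, G.loc_emb hκ, hc, G.emb_base hκ]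

theorem t_emb {κ : Ω} (hκ : κ ≠ G.inf) (v : V) {x y : Lo} (h : vp (Geo.kd z κ) x y = true)
    (m : Fin 3) : S.t' G z (G.emb κ v x) (G.emb κ v y) m = G.emb κ v (tl (Geo.kd z κ) x y m) := by
  rw [← tn_emb G z hκ v h m]
  cases x with
  | A c => cases y <;> rfl
  | K =>
    cases y with
    | A d => rfl
    | K => exact absurd h (by simp [vp])
    | R => exact absurd h (by simp [vp])
  | R =>
    cases y with
    | A d => rfl
    | K => exact absurd h (by simp [vp])
    | R => exact absurd h (by simp [vp])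

theorem s_emb {κ : Ω} (hκ : κ ≠ G.inf) (v : V) {x y : Lo} (h : vp (Geo.kd z κ) x y = true)
    (l : Lo) : S.s' G z (G.emb κ v x) (G.emb κ v y) (G.emb κ v l) = es (Geo.kd z κ) x y l := by
  have e : sn G z (G.emb κ v x) (G.emb κ v y) (G.emb κ v l) = es (Geo.kd z κ) x y l := by
    unfold sn
    rw [G.kap_emb z hκ v h, G.loc_emb hκ, G.loc_emb hκ, G.loc_emb hκ]
  rw [← e]
  cases x with
  | A c => cases y <;> cases l <;> rfl
  | K =>
    cases y with
    | A d => cases l <;> rfl
    | K => exact absurd h (by simp [vp])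
    | R => exact absurd h (by simp [vp])
  | R =>
    cases y with
    | A d => cases l <;> rfl
    | K => exact absurd h (by simp [vp])
    | R => exact absurd h (by simp [vp])

/-- labels beginning with a point of the line -/
theorem a_emb {κ : Ω} (hκ : κ ≠ G.inf) (v : V) {c : F4} {y : Lo}
    (h : vp (Geo.kd z κ) (A c) y = true) (l : Lo) :
    S.a' G z (G.emb κ v (A c)) (G.emb κ v y) (G.emb κ v l) =
      ((ll (Geo.kd z κ) (A c) y l).1 • G.u κ, (ll (Geo.kd z κ) (A c) y l).2) := by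
  have e1 := G.kap_emb z hκ v h
  have e2 := G.loc_emb hκ v (A c)
  have e3 := G.loc_emb hκ v y
  have e4 := G.loc_emb hκ v l
  obtain ⟨p, hp⟩ : ∃ p, p = v + (c + G.sc κ v) • G.u κ := ⟨_, rfl⟩
  have hp' : G.emb κ v (A c) = Sum.inr p := by
    rw [hp]
    rfl
  rw [hp'] at e1 e2 ⊢
  obtain ⟨q, hq⟩ : ∃ q, q = G.emb κ v y := ⟨_, rfl⟩
  obtain ⟨r, hr⟩ : ∃ r, r = G.emb κ v l := ⟨_, rfl⟩
  rw [← hq] at e1 e3 ⊢
  rw [← hr] at e4 ⊢
  have e5 : S.a' G z (Sum.inr p) q r =
      ((ll (Geo.kd z (G.kap z (Sum.inr p) q)) (G.loc (G.kap z (Sum.inr p) q) (Sum.inr p))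
      (G.loc (G.kap z (Sum.inr p) q) q) (G.loc (G.kap z (Sum.inr p) q) r)).1 •
        G.u (G.kap z (Sum.inr p) q),
      (ll (Geo.kd z (G.kap z (Sum.inr p) q)) (G.loc (G.kap z (Sum.inr p) q) (Sum.inr p))
      (G.loc (G.kap z (Sum.inr p) q) q) (G.loc (G.kap z (Sum.inr p) q) r)).2) := by
    cases q <;> rfl
  rw [e5, e1, e2, e3, e4]

/-- labels beginning with a further point -/
theorem a_ext {κ : Ω} (hκ : κ ≠ G.inf) (v : V) {x : Lo} {c : F4}
    (h : vp (Geo.kd z κ) x (A c) = true) (hx : ∀ e, x ≠ A e) (d : F4) :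
    S.a' G z (G.emb κ v x) (G.emb κ v (A c)) (G.emb κ v (A d)) =
      ((c + d) • (v + (c + G.sc κ v) • G.u κ), c + d) := by
  have e0 : ∀ k : Ω, G.star z k = κ → S.a' G z (Sum.inl k) (G.emb κ v (A c)) (G.emb κ v (A d)) =
      ((c + d) • (v + (c + G.sc κ v) • G.u κ), c + d) := by
    intro k hk
    show ((G.sc (G.star z k) (v + (c + G.sc κ v) • G.u κ) +
      G.sc (G.star z k) (v + (d + G.sc κ v) • G.u κ)) • (v + (c + G.sc κ v) • G.u κ),
      G.sc (G.star z k) (v + (c + G.sc κ v) • G.u κ) +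
      G.sc (G.star z k) (v + (d + G.sc κ v) • G.u κ)) = _
    rw [hk, G.sc_emb hκ, G.sc_emb hκ]
  cases x with
  | A e => exact absurd rfl (hx e)
  | K => exact e0 κ (G.star_self z hκ)
  | R =>
    refine e0 G.inf ?_
    rw [G.star_inf]
    exact (of_decide_eq_true h).symm

end Sys

end Pool.Agent.Lib.MP_65f012_coM
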